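import Pool.Agent.INU.SLT

/-!
MODULE YCH. The choice of the diagonal matrix `y`.

PROOF. exists_slots S gives σ, c. K = 1 + ∑ i, (‖a i‖ + ‖a i‖⁻¹): K > 1, ‖a i‖ < K, K⁻¹ < ‖a i‖. t = K^2.
y i = w i * (t : ℂ) ^ (c i). y i * y (σ i) = 1: for i ∈ S w i = w (σ i) = 1 and c (σ i) = - c i; for i ∉ S
σ i = i, c i = 0, w i ^ 2 = 1. ‖a i * (y i)⁻¹‖ = ‖a i‖ * t ^ (- c i) (norm of w i is 1). If c i < c j (integers) then
‖a j‖ t^(- c j) < K t^(- c j) ≤ K t^(- c i - 1) = K⁻¹ t^(- c i) < ‖a i‖ t^(- c i), so the norms differ; with c i = 0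
replaced by the number 1 the same estimate gives norm ≠ 1 for i ∈ S. (See exists_alpha in RevMaps/LinMain.lean.)
If c i = c j: either both are in S (then i = j) or both are outside (c ≠ 0 on S): then use hinj
((w i)⁻¹ = w i). ∏ y = ∏ w * t ^ (∑ c) = ∏ w.
-/

namespace Pool.Agent.INU

theorem exists_y {n : ℕ} (a : Fin n → ℂ) (ha : ∀ i, a i ≠ 0) (S : Finset (Fin n))
    (hS : Even S.card) (w : Fin n → ℂ) (hw : ∀ i, w i ^ 2 = 1) (hwS : ∀ i ∈ S, w i = 1)
    (hinj : ∀ i ∉ S, ∀ j ∉ S, a i * w i = a j * w j → i = j) :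
    ∃ (y : Fin n → ℂ) (σ : Fin n → Fin n), (∀ i, σ (σ i) = i) ∧ (∀ i, y i * y (σ i) = 1) ∧
      (∀ i ∉ S, y i = w i) ∧ Function.Injective (fun i => a i * (y i)⁻¹) ∧
      (∀ i ∈ S, ‖a i * (y i)⁻¹‖ ≠ 1) ∧ ∏ i, y i = ∏ i, w i := by
  classical
  obtain ⟨σ, c, hσσ, hσo, hσS, hcσ, hcinj, _, hcsum⟩ := exists_slots S hS
  obtain ⟨K, hK1, hKM, hKM'⟩ : ∃ K : ℝ, 1 < K ∧ (∀ i, ‖a i‖ < K) ∧ ∀ i, K⁻¹ < ‖a i‖ := by
    have hpos : ∀ i, 0 < ‖a i‖ := fun i => norm_pos_iff.2 (ha i)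
    have hnn : ∀ i, 0 ≤ ‖a i‖ + ‖a i‖⁻¹ := fun i => by
      have := hpos i
      positivity
    have hle : ∀ i, ‖a i‖ + ‖a i‖⁻¹ ≤ ∑ j, (‖a j‖ + ‖a j‖⁻¹) := fun i =>
      Finset.single_le_sum (f := fun j => ‖a j‖ + ‖a j‖⁻¹) (fun j _ => hnn j) (Finset.mem_univ i)
    have hS0 : 0 ≤ ∑ j, (‖a j‖ + ‖a j‖⁻¹) := Finset.sum_nonneg (fun j _ => hnn j)
    refine ⟨2 + ∑ j, (‖a j‖ + ‖a j‖⁻¹), by linarith, fun i => ?_, fun i => ?_⟩
    · have h1 := hle i
      have h2 : 0 < ‖a i‖⁻¹ := inv_pos.2 (hpos i)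
      linarith
    · rw [inv_lt_comm₀ (by linarith) (hpos i)]
      have h1 := hle i
      have h2 := hpos i
      linarith
  have hK0 : 0 < K := by linarith
  obtain ⟨t, ht⟩ : ∃ t : ℝ, t = K ^ 2 := ⟨_, rfl⟩
  have ht1 : 1 < t := by rw [ht]; nlinarith
  have ht0 : 0 < t := by linarith
  have htC : (t : ℂ) ≠ 0 := by exact_mod_cast ht0.ne'
  have hwn : ∀ i, ‖w i‖ = 1 := by
    intro i
    have h1 : ‖w i‖ ^ 2 = 1 := by rw [← norm_pow, hw i, norm_one]
    have h2 := norm_nonneg (w i)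
    nlinarith
  have hw0 : ∀ i, w i ≠ 0 := fun i h => by
    have := hwn i
    rw [h, norm_zero] at this
    exact zero_ne_one this
  have hwinv : ∀ i, (w i)⁻¹ = w i := by
    intro i
    exact inv_eq_of_mul_eq_one_right (by rw [← pow_two, hw i])
  have hnorm : ∀ i, ‖a i * (w i * (t : ℂ) ^ c i)⁻¹‖ = ‖a i‖ * t ^ (- c i) := by
    intro i
    rw [norm_mul, norm_inv, norm_mul, hwn, one_mul, norm_zpow, Complex.norm_real,
      Real.norm_of_nonneg ht0.le, zpow_neg]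
  have hmono : ∀ i j, c i < c j → ‖a j‖ * t ^ (- c j) < ‖a i‖ * t ^ (- c i) := by
    intro i j hij
    have h1 : t ^ (- c j) ≤ t ^ (- c i + -1) := zpow_le_zpow_right₀ ht1.le (by omega)
    rw [zpow_add₀ ht0.ne', zpow_neg_one] at h1
    have hti : 0 < t ^ (- c i) := zpow_pos ht0 _
    calc ‖a j‖ * t ^ (- c j) ≤ K * (t ^ (- c i) * t⁻¹) :=
          mul_le_mul (hKM j).le h1 (zpow_pos ht0 _).le hK0.le
      _ = K⁻¹ * t ^ (- c i) := by
          rw [ht]
          field_simp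
      _ < ‖a i‖ * t ^ (- c i) := mul_lt_mul_of_pos_right (hKM' i) hti
  refine ⟨fun i => w i * (t : ℂ) ^ c i, σ, hσσ, ?_, ?_, ?_, ?_, ?_⟩
  · intro i
    by_cases hi : i ∈ S
    · simp only
      rw [hwS i hi, hwS _ (hσS i hi).1, hcσ, one_mul, one_mul, zpow_neg,
        mul_inv_cancel₀ (zpow_ne_zero _ htC)]
    · simp only
      rw [(hσo i hi).1, (hσo i hi).2, zpow_zero, mul_one, ← pow_two, hw i]
  · intro i hi
    simp only
    rw [(hσo i hi).2, zpow_zero, mul_one]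
  · intro i j hij
    simp only at hij
    have hn := congrArg norm hij
    rw [hnorm, hnorm] at hn
    rcases lt_trichotomy (c i) (c j) with h | h | h
    · exact absurd hn (hmono i j h).ne'
    · by_cases hi : i ∈ S
      · by_cases hj : j ∈ S
        · exact hcinj i hi j hj h
        · exact absurd (h.trans (hσo j hj).2) (hσS i hi).2
      · by_cases hj : j ∈ S
        · exact absurd (h.symm.trans (hσo i hi).2) (hσS j hj).2
        · rw [(hσo i hi).2, (hσo j hj).2, zpow_zero, mul_one, mul_one, hwinv, hwinv] at hij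
          exact hinj i hi j hj hij
    · exact absurd hn.symm (hmono j i h).ne'
  · intro i hi
    simp only
    rw [hnorm]
    have hc0 := (hσS i hi).2
    rcases lt_or_gt_of_ne hc0 with h | h
    · have h1 : t ^ (1 : ℤ) ≤ t ^ (- c i) := zpow_le_zpow_right₀ ht1.le (by omega)
      rw [zpow_one] at h1
      have h2 : K⁻¹ * t < ‖a i‖ * t ^ (- c i) :=
        mul_lt_mul (hKM' i) h1 ht0 (norm_nonneg _)
      have h3 : K⁻¹ * t = K := by rw [ht]; field_simp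
      rw [h3] at h2
      exact (hK1.trans h2).ne'
    · have h1 : t ^ (- c i) ≤ t ^ (-1 : ℤ) := zpow_le_zpow_right₀ ht1.le (by omega)
      rw [zpow_neg_one] at h1
      have h2 : ‖a i‖ * t ^ (- c i) ≤ K * t⁻¹ :=
        mul_le_mul (hKM i).le h1 (zpow_pos ht0 _).le hK0.le
      have h3 : K * t⁻¹ = K⁻¹ := by rw [ht]; field_simp
      rw [h3] at h2
      have h4 : K⁻¹ < 1 := inv_lt_one_of_one_lt₀ hK1
      exact (lt_of_le_of_lt h2 h4).ne
  · rw [Finset.prod_mul_distrib]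
    have h3 : ∀ T : Finset (Fin n), ∏ i ∈ T, (t : ℂ) ^ c i = (t : ℂ) ^ (∑ i ∈ T, c i) := by
      intro T
      induction T using Finset.induction_on with
      | empty => simp
      | insert a T ha ih => rw [Finset.prod_insert ha, Finset.sum_insert ha, zpow_add₀ htC, ih]
    rw [h3, hcsum, zpow_zero, mul_one]

end Pool.Agent.INU
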