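import Pool.Agent.INU.ROT
import Pool.Agent.INU.YCH

/-!
MODULE CHO. The choice of `y` and of the roots `r` when some `a i` is not `1` or `-1`.
Put e = ∏ a = 1 or -1 and let i* be an index with a i* ≠ 1, -1.

PROOF. In all cases: y, σ from exists_y, r, κ, ... from exists_roots; r i has norm 1 (r i ^ m = 1), so r i ≠ α j for j ∈ S,
and for j ∉ S it is enough that X contains α j = a j * w j ((w j)⁻¹ = w j). ∏ α = e / ∏ w.
(1a) n odd: S = univ \ {i*}, w = 1, X = {a i*}, ε = e: ∏ r = - e = - ∏ α. (ε, - ε are 1 and -1 in some order, a i* is neither.)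
(1b) n even, e = -1: S = univ, w = 1, X = ∅, ε = 1: ∏ r = 1 = - ∏ α.
(1c) n even, e = 1 (n >= 3): there are p ≠ q with a p ≠ 1, -1 and a q ≠ - a p: if some q ≠ i* has a q ≠ - a i*, take p = i*;
     otherwise all others are equal to - a i* and we take two of them for p, q (- a i* ≠ a i*). S = univ \ {p, q},
     w = -1 at q and 1 elsewhere, X = {a p, - a q}, ε = 1 if a q ≠ -1 and ε = -1 otherwise:
     ∏ r = 1, ∏ α = -1. hinj: a p ≠ - a q.
-/

namespace Pool.Agent.INU

private theorem choice_asm {n : ℕ} (hn : 3 ≤ n) (a : Fin n → ℂ) (ha : ∀ i, a i ≠ 0)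
    (S : Finset (Fin n)) (hS : Even S.card) (w : Fin n → ℂ) (hw : ∀ i, w i ^ 2 = 1)
    (hwS : ∀ i ∈ S, w i = 1) (hinj : ∀ i ∉ S, ∀ j ∉ S, a i * w i = a j * w j → i = j)
    (ε : ℂ) (hε : ε ^ 2 = 1) (hX1 : ∀ j ∉ S, a j * w j ≠ ε)
    (hX2 : Odd n → ∀ j ∉ S, a j * w j ≠ -ε)
    (hpr : (if Even n then (1 : ℂ) else -ε) = - ((∏ i, a i) * ∏ i, w i)) :
    ∃ (y : Fin n → ℂ) (σ : Fin n → Fin n) (r : Fin n → ℂ) (i0 i1 : Fin n) (κ : Fin n → Fin n)
      (m : ℕ), (∀ i, y i ≠ 0) ∧ (∀ i, σ (σ i) = i) ∧ (∀ i, y i * y (σ i) = 1) ∧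
      Function.Injective (fun i => a i * (y i)⁻¹) ∧ i0 ≠ i1 ∧ 0 < m ∧ r i0 = r i1 ∧
      (∀ i j, i ≠ i1 → j ≠ i1 → r i = r j → i = j) ∧ (∀ i j, r i ≠ a j * (y j)⁻¹) ∧
      ∏ i, r i = - ∏ i, (a i * (y i)⁻¹) ∧ (∀ i, κ (κ i) = i) ∧ κ i0 = i0 ∧ κ i1 = i1 ∧
      (∀ i, r i * r (κ i) = 1) ∧ (∀ i, r i ^ m = 1) := by
  classical
  obtain ⟨y, σ, hσ, hy, hyS, hyinj, hynorm, hyprod⟩ := exists_y a ha S hS w hw hwS hinj
  obtain ⟨r, i0, i1, κ, m, h01, hm, hr01, hr, hκ, hκ0, hκ1, hrκ, hrm, hrX, hrprod⟩ :=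
    exists_roots (n := n) (by omega) ε hε ((Finset.univ \ S).image (fun j => a j * w j))
      (by
        intro h
        obtain ⟨j, hj, hj'⟩ := Finset.mem_image.mp h
        exact hX1 j (by simpa using hj) hj')
      (by
        intro ho h
        obtain ⟨j, hj, hj'⟩ := Finset.mem_image.mp h
        exact hX2 ho j (by simpa using hj) hj')
  have hy0 : ∀ i, y i ≠ 0 := by
    intro i h
    have h1 := hy i
    rw [h, zero_mul] at h1
    exact zero_ne_one h1
  have hwinv : ∀ i, (w i)⁻¹ = w i := by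
    intro i
    have h1 := hw i
    have h2 : w i * w i = 1 := by rw [← sq]; exact h1
    exact inv_eq_of_mul_eq_one_right h2
  refine ⟨y, σ, r, i0, i1, κ, m, hy0, hσ, hy, hyinj, h01, hm, hr01, hr, ?_, ?_, hκ, hκ0, hκ1,
    hrκ, hrm⟩
  · intro i j h
    by_cases hj : j ∈ S
    · apply hynorm j hj
      rw [← h]
      exact Complex.norm_eq_one_of_pow_eq_one (hrm i) hm.ne'
    · apply hrX i
      rw [h, hyS j hj, hwinv]
      exact Finset.mem_image.mpr ⟨j, by simpa using hj, rfl⟩
  · rw [hrprod, hpr, Finset.prod_mul_distrib, Finset.prod_inv_distrib, hyprod,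
      ← Finset.prod_inv_distrib]
    simp only [hwinv]

theorem choice1 {n : ℕ} (hn : 3 ≤ n) (a : Fin n → ℂ) (ha : ∀ i, a i ≠ 0)
    (he : (∏ i, a i) ^ 2 = 1) (hcase : ∃ i, a i ≠ 1 ∧ a i ≠ -1) :
    ∃ (y : Fin n → ℂ) (σ : Fin n → Fin n) (r : Fin n → ℂ) (i0 i1 : Fin n) (κ : Fin n → Fin n)
      (m : ℕ), (∀ i, y i ≠ 0) ∧ (∀ i, σ (σ i) = i) ∧ (∀ i, y i * y (σ i) = 1) ∧
      Function.Injective (fun i => a i * (y i)⁻¹) ∧ i0 ≠ i1 ∧ 0 < m ∧ r i0 = r i1 ∧
      (∀ i j, i ≠ i1 → j ≠ i1 → r i = r j → i = j) ∧ (∀ i j, r i ≠ a j * (y j)⁻¹) ∧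
      ∏ i, r i = - ∏ i, (a i * (y i)⁻¹) ∧ (∀ i, κ (κ i) = i) ∧ κ i0 = i0 ∧ κ i1 = i1 ∧
      (∀ i, r i * r (κ i) = 1) ∧ (∀ i, r i ^ m = 1) := by
  classical
  obtain ⟨i', hi1, hi2⟩ := hcase
  have he' : (∏ i, a i) = 1 ∨ (∏ i, a i) = -1 := by
    have h1 : (∏ i, a i) ^ 2 = 1 ^ 2 := by rw [he, one_pow]
    exact sq_eq_sq_iff_eq_or_eq_neg.mp h1
  rcases Nat.even_or_odd n with hev | hod
  · rcases he' with h1 | h1
    · -- case 1c
      obtain ⟨p, q, hpq, hp1, hp2, hqp⟩ : ∃ p q : Fin n, p ≠ q ∧ a p ≠ 1 ∧ a p ≠ -1 ∧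
          a q ≠ - a p := by
        by_cases h : ∃ q, q ≠ i' ∧ a q ≠ - a i'
        · obtain ⟨q, hq, hq'⟩ := h
          exact ⟨i', q, hq.symm, hi1, hi2, hq'⟩
        · push Not at h
          have hc : 1 < (Finset.univ.erase i').card := by
            rw [Finset.card_erase_of_mem (Finset.mem_univ _), Finset.card_univ, Fintype.card_fin]
            omega
          obtain ⟨p, hp, q, hq, hpq⟩ := Finset.one_lt_card.mp hc
          have hp' := h p (Finset.ne_of_mem_erase hp)
          have hq' := h q (Finset.ne_of_mem_erase hq)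
          refine ⟨p, q, hpq, ?_, ?_, ?_⟩
          · rw [hp']
            intro h2
            exact hi2 (by rw [← h2, neg_neg])
          · rw [hp']
            intro h2
            exact hi1 (neg_injective h2)
          · rw [hp', hq']
            intro h2
            rw [neg_neg] at h2
            have h3 : a i' = 0 := by
              have h4 : a i' + a i' = 0 := by
                nth_rewrite 1 [← h2]
                ring
              have h5 : (2 : ℂ) * a i' = 0 := by rw [two_mul]; exact h4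
              rcases mul_eq_zero.mp h5 with h6 | h6
              · norm_num at h6
              · exact h6
            exact ha i' h3
      have hmem : ∀ i, i ∉ (Finset.univ.erase p).erase q → i = p ∨ i = q := by
        intro i hi
        by_contra hcon
        push Not at hcon
        exact hi (Finset.mem_erase.mpr ⟨hcon.2, Finset.mem_erase.mpr ⟨hcon.1, Finset.mem_univ _⟩⟩)
      have hw1 : ∏ i, (if i = q then (-1 : ℂ) else 1) = -1 := by
        rw [Finset.prod_ite_eq' Finset.univ q]
        simp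
      refine choice_asm hn a ha ((Finset.univ.erase p).erase q) ?_
        (fun i => if i = q then -1 else 1) ?_ ?_ ?_ (if a q ≠ -1 then 1 else -1) ?_ ?_ ?_ ?_
      · rw [Finset.card_erase_of_mem (Finset.mem_erase.mpr ⟨hpq.symm, Finset.mem_univ _⟩),
          Finset.card_erase_of_mem (Finset.mem_univ _), Finset.card_univ, Fintype.card_fin]
        obtain ⟨k, hk⟩ := hev
        exact ⟨k - 1, by omega⟩
      · intro i
        split_ifs <;> norm_num
      · intro i hi
        rw [if_neg (Finset.ne_of_mem_erase hi)]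
      · intro i hi j hj h
        rcases hmem i hi with rfl | rfl <;> rcases hmem j hj with rfl | rfl
        · rfl
        · rw [if_neg hpq, if_pos rfl] at h
          exact absurd (by rw [mul_one] at h; rw [h]; ring) hqp
        · rw [if_neg hpq, if_pos rfl] at h
          exact absurd (by rw [mul_one] at h; rw [← h]; ring) hqp
        · rfl
      · split_ifs <;> norm_num
      · intro j hj
        rcases hmem j hj with rfl | rfl
        · rw [if_neg hpq, mul_one]
          split_ifs
          · exact hp1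
          · exact hp2
        · rw [if_pos rfl]
          split_ifs with h2
          · intro h3
            apply h2
            rw [← h3]
            ring
          · push Not at h2
            rw [h2]
            norm_num
      · intro ho
        exact absurd hev (Nat.not_even_iff_odd.mpr ho)
      · rw [if_pos hev, h1, hw1]
        norm_num
    · -- case 1b
      refine choice_asm hn a ha Finset.univ ?_ (fun _ => 1) (fun i => by norm_num)
        (fun i _ => rfl) (fun i hi => absurd (Finset.mem_univ i) hi) 1 (by norm_num)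
        (fun i hi => absurd (Finset.mem_univ i) hi)
        (fun _ i hi => absurd (Finset.mem_univ i) hi) ?_
      · rw [Finset.card_univ, Fintype.card_fin]
        exact hev
      · rw [if_pos hev, h1]
        simp
  · -- case 1a
    have hmem : ∀ i, i ∉ Finset.univ.erase i' → i = i' := by
      intro i hi
      by_contra hcon
      exact hi (Finset.mem_erase.mpr ⟨hcon, Finset.mem_univ _⟩)
    refine choice_asm hn a ha (Finset.univ.erase i') ?_ (fun _ => 1) (fun i => by norm_num)
      (fun i _ => rfl) ?_ (∏ i, a i) he ?_ ?_ ?_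
    · rw [Finset.card_erase_of_mem (Finset.mem_univ _), Finset.card_univ, Fintype.card_fin]
      obtain ⟨k, hk⟩ := hod
      exact ⟨k, by omega⟩
    · intro i hi j hj _
      rw [hmem i hi, hmem j hj]
    · intro j hj
      rw [hmem j hj, mul_one]
      rcases he' with h1 | h1
      · rw [h1]; exact hi1
      · rw [h1]; exact hi2
    · intro _ j hj
      rw [hmem j hj, mul_one]
      rcases he' with h1 | h1
      · rw [h1]; exact hi2
      · rw [h1, neg_neg]; exact hi1
    · rw [if_neg (Nat.not_even_iff_odd.mpr hod)]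
      simp

end Pool.Agent.INU
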