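import Pool.Agent.INU.POL
import Pool.Agent.INU.CHO
import Pool.Agent.RevMaps.Triang

/-!
MODULE CA1. Case 1: a matrix of determinant `1` or `-1` similar to an upper triangular one with a
diagonal entry different from `1` and `-1`: all its formal maps are products of five involutions.

PROOF. exists_triangular is given (A * Q = Q * A'). det: ∏ A' i i = det A' = det A. choice1 with a i = A' i i gives y, ...
N = A' * diagonal y⁻¹ is upper triangular with diagonal α i = a i * (y i)⁻¹, distinct: exists_diag: N * Q2 = Q2 * diagonal α.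
pole: LP 3 (diagonal α), so LP 3 N (LP.of_similar). A' = N * diagonal y, diagonal y = Mon σ y * Mon σ 1 (Mon_mul), both
involutions (y i * y (σ i) = 1). LP.mul_invol twice: LP 5 A'; LP.of_similar: LP 5 A.
-/

namespace Pool.Agent.INU

open Matrix Pool.Agent.RevMaps

theorem case_one {n : ℕ} (hn : 3 ≤ n) (A Q A' : Matrix (Fin n) (Fin n) ℂ) (hQ : Q.det ≠ 0)
    (hA' : ∀ i j, j < i → A' i j = 0) (hAQ : A * Q = Q * A') (hdet : A.det ^ 2 = 1)
    (hcase : ∃ i, A' i i ≠ 1 ∧ A' i i ≠ -1) : LP 5 A := by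
  have hdet' : A'.det = ∏ i, A' i i := Matrix.det_of_upperTriangular (fun i j h => hA' i j h)
  have hdd : A.det = A'.det := by
    have h := congrArg Matrix.det hAQ
    rw [Matrix.det_mul, Matrix.det_mul, mul_comm] at h
    exact mul_left_cancel₀ hQ h
  have he : (∏ i, A' i i) ^ 2 = 1 := by rw [← hdet', ← hdd]; exact hdet
  have ha : ∀ i, A' i i ≠ 0 := by
    intro i h0
    have h1 : ∏ i, A' i i = 0 := Finset.prod_eq_zero (Finset.mem_univ i) h0
    rw [h1] at he
    norm_num at he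
  obtain ⟨y, σ, r, i0, i1, κ, m, hy0, hσ, hyσ, hinj, h01, hm, hr01, hr, hrα, hprod, hκ, hκ0, hκ1,
    hrκ, hrm⟩ := choice1 hn (fun i => A' i i) ha he hcase
  have hα0 : ∀ i, A' i i * (y i)⁻¹ ≠ 0 := fun i => mul_ne_zero (ha i) (inv_ne_zero (hy0 i))
  have hLP := pole (fun i => A' i i * (y i)⁻¹) r i0 i1 κ m hm h01 hinj hα0 hr01 hr hrα hprod hκ
    hκ0 hκ1 hrκ hrm
  have hN : ∀ i j, (A' * diagonal (fun i => (y i)⁻¹)) i j = A' i j * (y j)⁻¹ := fun i j => by
    rw [mul_diagonal]
  obtain ⟨Q2, hQ2, hNQ⟩ := exists_diag (A' * diagonal (fun i => (y i)⁻¹))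
    (fun i j h => by rw [hN, hA' i j h, zero_mul]) (by simpa only [hN] using hinj)
  have hdiag : diagonal (fun i => (A' * diagonal (fun i => (y i)⁻¹)) i i) =
      diagonal (fun i => A' i i * (y i)⁻¹) := by
    congr 1
    funext i
    exact hN i i
  rw [hdiag] at hNQ
  have hLN : LP 3 (A' * diagonal (fun i => (y i)⁻¹)) := LP.of_similar hQ2 hNQ hLP
  have hM1 : Mon σ y * Mon σ y = 1 := by
    rw [Mon_mul σ hσ]
    simp only [hyσ]
    exact diagonal_one
  have hM2 : Mon σ (fun _ => (1 : ℂ)) * Mon σ (fun _ => (1 : ℂ)) = 1 := by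
    rw [Mon_mul σ hσ]
    simp only [mul_one]
    exact diagonal_one
  have hM3 : Mon σ y * Mon σ (fun _ => (1 : ℂ)) = diagonal y := by
    rw [Mon_mul σ hσ]
    simp only [mul_one]
  have h5 : LP 5 (A' * diagonal (fun i => (y i)⁻¹) * Mon σ y * Mon σ (fun _ => (1 : ℂ))) :=
    LP.mul_invol hM2 (LP.mul_invol hM1 hLN)
  have h6 : A' * diagonal (fun i => (y i)⁻¹) * Mon σ y * Mon σ (fun _ => (1 : ℂ)) = A' := by
    rw [mul_assoc, hM3, mul_assoc, diagonal_mul_diagonal]
    have h7 : (fun i => (y i)⁻¹ * y i) = fun _ => (1 : ℂ) := by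
      funext i
      exact inv_mul_cancel₀ (hy0 i)
    rw [h7, diagonal_one, mul_one]
  rw [h6] at h5
  exact LP.of_similar hQ hAQ h5

end Pool.Agent.INU
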