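import Mathlib

/-!
MODULE CMB. Gluing of involutions on a direct sum, with control of the trace.

PROOF. Universe-monomorphic, any finite dimensional V. If the dimensions of U and U' are both odd use - P' instead of P'
(the relations do not change): so there is ε = 1 or -1 with trace P + ε * trace P' = (0 if Even (finrank V), 1 otherwise), where
finrank V = finrank U + finrank U' (Submodule.finrank_add_eq_of_isCompl). e = Submodule.prodEquivOfIsCompl U U' h :
(U × U') ≃ₗ V, R = e ∘ (P.prodMap (ε • P')) ∘ e.symm; trace by LinearMap.trace_conj', LinearMap.trace_prodMap. The relations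
can be checked on u + u'.
-/

namespace Pool.Agent.INU

/-- the sign condition on the trace -/
noncomputable def tgt (V : Type) [AddCommGroup V] [Module ℂ V] : ℂ :=
  if Even (Module.finrank ℂ V) then 0 else 1

private theorem cmb_conj {V : Type} [AddCommGroup V] [Module ℂ V]
    (U U' : Submodule ℂ V) (h : IsCompl U U') (A : Module.End ℂ V)
    (hA : ∀ x ∈ U, A x ∈ U) (hA' : ∀ x ∈ U', A x ∈ U') :
    A = (Submodule.prodEquivOfIsCompl U U' h).conj
      ((LinearMap.restrict A hA).prodMap (LinearMap.restrict A hA')) := by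
  apply LinearMap.ext
  intro x
  obtain ⟨y, rfl⟩ := (Submodule.prodEquivOfIsCompl U U' h).surjective x
  rw [LinearEquiv.conj_apply_apply, LinearEquiv.symm_apply_apply]
  obtain ⟨u, u'⟩ := y
  simp

theorem comb {V : Type} [AddCommGroup V] [Module ℂ V] [FiniteDimensional ℂ V]
    (U U' : Submodule ℂ V) (h : IsCompl U U') (A B : Module.End ℂ V)
    (hA : ∀ x ∈ U, A x ∈ U) (hA' : ∀ x ∈ U', A x ∈ U') (hB : ∀ x ∈ U, B x ∈ U)
    (hB' : ∀ x ∈ U', B x ∈ U') (P : Module.End ℂ U) (P' : Module.End ℂ U')
    (hP : P * P = 1) (hP' : P' * P' = 1)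
    (hAB : P * (LinearMap.restrict A hA : Module.End ℂ U) =
      (LinearMap.restrict B hB : Module.End ℂ U) * P)
    (hAB' : P' * (LinearMap.restrict A hA' : Module.End ℂ U') =
      (LinearMap.restrict B hB' : Module.End ℂ U') * P')
    (ht : LinearMap.trace ℂ U P = tgt U) (ht' : LinearMap.trace ℂ U' P' = tgt U') :
    ∃ R : Module.End ℂ V, R * R = 1 ∧ R * A = B * R ∧ LinearMap.trace ℂ V R = tgt V := by
  obtain ⟨ε, hε, htr⟩ : ∃ ε : ℂ, ε * ε = 1 ∧ tgt U + ε * tgt U' = tgt V := by
    have hd := Submodule.finrank_add_eq_of_isCompl h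
    by_cases h1 : Even (Module.finrank ℂ U) <;> by_cases h2 : Even (Module.finrank ℂ U')
    · exact ⟨1, by ring, by simp [tgt, h1, h2, ← hd, Nat.even_add]⟩
    · exact ⟨1, by ring, by simp [tgt, h1, h2, ← hd, Nat.even_add]⟩
    · exact ⟨1, by ring, by simp [tgt, h1, h2, ← hd, Nat.even_add]⟩
    · exact ⟨-1, by ring, by simp [tgt, h1, h2, ← hd, Nat.even_add]⟩
  set e := Submodule.prodEquivOfIsCompl U U' h with he
  have hmul : ∀ f g : Module.End ℂ (U × U'), e.conj f * e.conj g = e.conj (f * g) := by
    intro f g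
    apply LinearMap.ext
    intro x
    simp [LinearEquiv.conj_apply_apply, Module.End.mul_apply]
  have hone : e.conj (1 : Module.End ℂ (U × U')) = 1 := by
    apply LinearMap.ext
    intro x
    simp [LinearEquiv.conj_apply_apply]
  refine ⟨e.conj (P.prodMap (ε • P')), ?_, ?_, ?_⟩
  · rw [hmul, ← hone]
    congr 1
    apply LinearMap.ext
    rintro ⟨u, u'⟩
    have e1 : P (P u) = u := by
      have := LinearMap.congr_fun hP u
      simpa [Module.End.mul_apply] using this
    have e2 : P' (P' u') = u' := by
      have := LinearMap.congr_fun hP' u'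
      simpa [Module.End.mul_apply] using this
    simp only [Module.End.mul_apply, LinearMap.prodMap_apply, LinearMap.smul_apply, map_smul,
      e1, e2, smul_smul, hε, one_smul, Module.End.one_apply]
  · conv_lhs => rw [cmb_conj U U' h A hA hA']
    conv_rhs => rw [cmb_conj U U' h B hB hB']
    rw [← he, hmul, hmul]
    congr 1
    apply LinearMap.ext
    rintro ⟨u, u'⟩
    have e1 := LinearMap.congr_fun hAB u
    have e2 := LinearMap.congr_fun hAB' u'
    simp only [Module.End.mul_apply] at e1 e2
    simp only [Module.End.mul_apply, LinearMap.prodMap_apply, LinearMap.smul_apply, map_smul,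
      e1, e2]
  · rw [LinearMap.trace_conj', LinearMap.trace_prodMap', map_smul, ht, ht', smul_eq_mul, htr]

end Pool.Agent.INU
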