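import Mathlib
import Pool.Agent.RevMaps.Upper
import Pool.Agent.RevMaps.LiftConj

/-!
Products of `k` involutions of the group of formal maps; matrices all of whose formal maps with
that linear part are products of `k` involutions.
-/

namespace Pool.Agent.INU

open Matrix Pool.Agent.RevMaps

variable {n : ℕ}

/-- `f` is a product of `k` involutions. -/
def PP (k : ℕ) (f : FMap n) : Prop :=
  ∃ l : List (FMap n), l.length = k ∧ (∀ τ ∈ l, τ * τ = 1) ∧ l.prod = f

/-- Every formal map with linear part `A` is a product of `k` involutions. -/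
def LP (k : ℕ) (A : Matrix (Fin n) (Fin n) ℂ) : Prop := ∀ f : FMap n, lin f = A → PP k f

theorem PP.one {τ : FMap n} (h : τ * τ = 1) : PP 1 τ :=
  ⟨[τ], rfl, by simpa using h, by simp⟩

theorem PP.mul {k l : ℕ} {f g : FMap n} (hf : PP k f) (hg : PP l g) : PP (k + l) (f * g) := by
  obtain ⟨a, ha, ha', rfl⟩ := hf
  obtain ⟨b, hb, hb', rfl⟩ := hg
  refine ⟨a ++ b, by simp [ha, hb], ?_, by simp⟩
  intro τ hτ
  rcases List.mem_append.mp hτ with h | h
  · exact ha' τ h
  · exact hb' τ h

theorem PP.conj {k : ℕ} {f p p' : FMap n} (h1 : p * p' = 1) (h2 : p' * p = 1) (hf : PP k f) :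
    PP k (p * f * p') := by
  obtain ⟨a, ha, ha', rfl⟩ := hf
  refine ⟨a.map (fun τ => p * τ * p'), by simpa using ha, ?_, ?_⟩
  · intro τ hτ
    obtain ⟨s, hs, rfl⟩ := List.mem_map.mp hτ
    calc p * s * p' * (p * s * p') = p * (s * (p' * p) * s) * p' := by simp only [mul_assoc]
      _ = 1 := by rw [h2, mul_one, ha' s hs, mul_one, h1]
  · clear ha ha'
    induction a with
    | nil => simp [h1]
    | cons s a ih =>
      rw [List.map_cons, List.prod_cons, ih, List.prod_cons]
      calc p * s * p' * (p * a.prod * p') = p * s * (p' * p) * a.prod * p' := by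
            simp only [mul_assoc]
        _ = _ := by rw [h2, mul_one]; simp only [mul_assoc]

theorem LP.conj {k : ℕ} {A P P' : Matrix (Fin n) (Fin n) ℂ} (h1 : P * P' = 1) (h2 : P' * P = 1)
    (h : LP k A) : LP k (P * A * P') := by
  intro f hf
  have e1 : linMap P * linMap P' = 1 := by rw [← linMap_mul, h1, linMap_one]
  have e2 : linMap P' * linMap P = 1 := by rw [← linMap_mul, h2, linMap_one]
  have h3 : lin (linMap P' * f * linMap P) = A := by
    rw [lin_mul, lin_mul, hf, lin_linMap, lin_linMap]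
    calc P' * (P * A * P') * P = (P' * P) * A * (P' * P) := by simp only [mul_assoc]
      _ = A := by rw [h2, one_mul, mul_one]
  have h4 := (h _ h3).conj e1 e2
  convert h4 using 1
  calc f = (linMap P * linMap P') * f * (linMap P * linMap P') := by rw [e1, one_mul, mul_one]
    _ = _ := by simp only [mul_assoc]

theorem LP.of_similar {k : ℕ} {A B Q : Matrix (Fin n) (Fin n) ℂ} (hQ : Q.det ≠ 0)
    (hAB : A * Q = Q * B) (h : LP k B) : LP k A := by
  have hQu : IsUnit Q.det := isUnit_iff_ne_zero.mpr hQ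
  have hQQ : Q * Q⁻¹ = 1 := Matrix.mul_nonsing_inv Q hQu
  have hQQ' : Q⁻¹ * Q = 1 := Matrix.nonsing_inv_mul Q hQu
  have h1 := h.conj hQQ hQQ'
  rw [← hAB, mul_assoc, hQQ, mul_one] at h1
  exact h1

theorem LP.mul_invol {k : ℕ} {A U : Matrix (Fin n) (Fin n) ℂ} (hU : U * U = 1) (h : LP k A) :
    LP (k + 1) (A * U) := by
  intro f hf
  have e1 : linMap U * linMap U = 1 := by rw [← linMap_mul, hU, linMap_one]
  have h3 : lin (f * linMap U) = A := by
    rw [lin_mul, hf, lin_linMap, mul_assoc, hU, mul_one]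
  have h4 := (h _ h3).mul (PP.one e1)
  rwa [mul_assoc, e1, mul_one] at h4

theorem PP.five {f : FMap n} (h : PP 5 f) :
    ∃ τ : Fin 5 → FMap n, (∀ k, τ k * τ k = 1) ∧ τ 0 * τ 1 * τ 2 * τ 3 * τ 4 = f := by
  obtain ⟨l, hl, hl', rfl⟩ := h
  match l, hl with
  | [a, b, c, d, e], _ =>
    refine ⟨![a, b, c, d, e], ?_, ?_⟩
    · intro k
      fin_cases k
      · exact hl' a (by simp)
      · exact hl' b (by simp)
      · exact hl' c (by simp)
      · exact hl' d (by simp)
      · exact hl' e (by simp)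
    · show a * b * c * d * e = _
      simp [mul_assoc]

end Pool.Agent.INU
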