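import Pool.Agent.INU.QNI
import Mathlib

/-!
MODULE QUA. A matrix all of whose eigenvalues are `1` or `-1` is inverted by an involution of trace
`n mod 2`.

PROOF. (1) QU1: V finite dimensional, ε = 1 or -1, B : End V with B - ε nilpotent: there is P with P * P = 1, P * B = B' * P for
the inverse B' of B, and trace P = tgt V. Proof: B + ε = 2 ε + nilpotent is invertible; x = (B - ε)(B + ε)⁻¹ is nilpotent
(commuting product), B (1 - x) = ε (1 + x): anti_nil x gives P with P x = - x P, so P B (1 - x) = ε P (1 + x) = ε (1 - x) P and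
P B (1 - x) = P B P (1 + x) P ...: P B P (1 + x) = ε (1 - x), B P B P (1 + x) = ε B (1 - x) = 1 + x, and 1 + x is invertible,
so B P B P = 1, i.e. (P B)^2 = 1.
(2) A' upper triangular with diagonal entries 1 or -1: (A' - 1)^n (A' + 1)^n = 0 (Cayley-Hamilton: the characteristic polynomial is
∏ (X - C (A' i i)), Matrix.charpoly_of_upperTriangular, divides (X-1)^n (X+1)^n). V = Fin n → ℂ, B = Matrix.toLin' A (or mulVecLin),
U = ker (B - 1)^n, U' = ker (B + 1)^n are complementary (Polynomial.sup_ker_aeval_of_coprime..., or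
LinearMap/Module.End: `Polynomial.disjoint_ker_aeval_of_isCoprime`, `Polynomial.sup_ker_aeval_eq_ker_aeval_mul_of_coprime`),
invariant under B and its inverse B'. (1) on U and U' and `comb` with A = B, B = B'. R * B = B' * R gives R B R B = 1.
Go back to matrices (LinearMap.toMatrix', trace: Matrix.trace_toLin'..., LinearMap.trace_eq_matrix_trace).
-/

namespace Pool.Agent.INU

open Matrix

private theorem qua_one {V : Type} [AddCommGroup V] [Module ℂ V] [FiniteDimensional ℂ V]
    (ε : ℂ) (hε : ε * ε = 1) (B B' : Module.End ℂ V) (h1 : B * B' = 1)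
    (hnil : IsNilpotent (B - algebraMap ℂ (Module.End ℂ V) ε)) :
    ∃ P : Module.End ℂ V, P * P = 1 ∧ P * B = B' * P ∧ LinearMap.trace ℂ V P = tgt V := by
  set E : Module.End ℂ V := algebraMap ℂ (Module.End ℂ V) ε with hE
  have hEE : E * E = 1 := by rw [hE, ← map_mul, hε, map_one]
  have hEc : ∀ y : Module.End ℂ V, E * y = y * E := fun y => Algebra.commutes ε y
  have h20 : IsUnit (E + E) := by
    have : E + E = algebraMap ℂ (Module.End ℂ V) (ε + ε) := by rw [map_add]
    rw [this]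
    apply IsUnit.map
    rw [isUnit_iff_ne_zero, ← two_mul]
    refine mul_ne_zero two_ne_zero ?_
    rintro rfl
    simp at hε
  have hu : IsUnit (B + E) := by
    have h := hnil.isUnit_add_left_of_commute h20 (by
      show (B - E) * (E + E) = (E + E) * (B - E)
      rw [mul_add, add_mul, hEc])
    have e : E + E + (B - E) = B + E := by abel
    rwa [e] at h
  obtain ⟨C, hC1, hC2⟩ := isUnit_iff_exists.mp hu
  -- C commutes with B - E
  have hcomm : (B - E) * (B + E) = (B + E) * (B - E) := by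
    simp only [sub_mul, mul_sub, mul_add, add_mul, hEc B]
    abel
  have hCc : (B - E) * C = C * (B - E) := by
    calc (B - E) * C = (C * (B + E)) * ((B - E) * C) := by rw [hC2, one_mul]
      _ = C * ((B + E) * (B - E)) * C := by simp only [mul_assoc]
      _ = C * ((B - E) * (B + E)) * C := by rw [hcomm]
      _ = C * (B - E) * ((B + E) * C) := by simp only [mul_assoc]
      _ = C * (B - E) := by rw [hC1, mul_one]
  set x : Module.End ℂ V := (B - E) * C with hx
  have hxn : IsNilpotent x := by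
    have hc : Commute (B - E) C := hCc
    exact hc.isNilpotent_mul_right hnil
  have hxB : (1 - x) * B = E * (1 + x) := by
    have e : x * (B + E) = B - E := by rw [hx, mul_assoc, hC2, mul_one]
    have e2 : x * B + E * x = B - E := by rw [hEc x, ← mul_add, e]
    rw [sub_mul, one_mul, mul_add, mul_one]
    have e3 : x * B = B - E - E * x := by rw [← e2]; abel
    rw [e3]
    abel
  have hB'x : (1 + x) * B' = E * (1 - x) := by
    calc (1 + x) * B' = (E * E) * (1 + x) * B' := by rw [hEE, one_mul]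
      _ = E * (E * (1 + x)) * B' := by simp only [mul_assoc]
      _ = E * ((1 - x) * B) * B' := by rw [hxB]
      _ = E * (1 - x) * (B * B') := by simp only [mul_assoc]
      _ = E * (1 - x) := by rw [h1, mul_one]
  obtain ⟨P, hP, hPx, hPt⟩ := anti_nil x hxn
  refine ⟨P, hP, ?_, hPt⟩
  have hu1 : IsUnit (1 + x) := hxn.isUnit_one_add
  apply hu1.mul_left_cancel
  have e1 : (1 + x) * P = P * (1 - x) := by
    rw [add_mul, one_mul, mul_sub, mul_one, hPx]
    simp
  have e2 : (1 - x) * P = P * (1 + x) := by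
    rw [sub_mul, one_mul, mul_add, mul_one, hPx]
    rw [neg_mul, sub_eq_add_neg]
  calc (1 + x) * (P * B) = ((1 + x) * P) * B := by rw [mul_assoc]
    _ = P * ((1 - x) * B) := by rw [e1, mul_assoc]
    _ = P * (E * (1 + x)) := by rw [hxB]
    _ = E * (P * (1 + x)) := by rw [← mul_assoc, ← hEc P, mul_assoc]
    _ = E * ((1 - x) * P) := by rw [e2]
    _ = (1 + x) * B' * P := by rw [hB'x, mul_assoc]
    _ = (1 + x) * (B' * P) := by rw [mul_assoc]

/-- restriction of `B` to a submodule killed by a power of `B - ε` -/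
private theorem qua_two {V : Type} [AddCommGroup V] [Module ℂ V] [FiniteDimensional ℂ V]
    (ε : ℂ) (hε : ε * ε = 1) (B B' : Module.End ℂ V) (h1 : B * B' = 1) (U : Submodule ℂ V)
    (hB : ∀ x ∈ U, B x ∈ U) (hB' : ∀ x ∈ U, B' x ∈ U) (m : ℕ)
    (hm : ∀ x ∈ U, ((B - algebraMap ℂ (Module.End ℂ V) ε) ^ m) x = 0) :
    ∃ P : Module.End ℂ U, P * P = 1 ∧ P * (LinearMap.restrict B hB : Module.End ℂ U) =
      (LinearMap.restrict B' hB' : Module.End ℂ U) * P ∧ LinearMap.trace ℂ U P = tgt U := by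
  apply qua_one ε hε
  · apply LinearMap.ext
    intro y
    apply Subtype.ext
    have := LinearMap.congr_fun h1 (y : V)
    simpa [Module.End.mul_apply] using this
  · refine ⟨m, ?_⟩
    have hBm : ∀ x ∈ U, (B - algebraMap ℂ (Module.End ℂ V) ε) x ∈ U := by
      intro x hx
      rw [LinearMap.sub_apply, Module.algebraMap_end_apply]
      exact Submodule.sub_mem _ (hB x hx) (Submodule.smul_mem _ _ hx)
    have e : (LinearMap.restrict B hB : Module.End ℂ U) - algebraMap ℂ (Module.End ℂ U) ε =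
        (LinearMap.restrict (B - algebraMap ℂ (Module.End ℂ V) ε) hBm : Module.End ℂ U) := by
      apply LinearMap.ext
      intro y
      apply Subtype.ext
      simp
    rw [e]
    apply LinearMap.ext
    intro y
    apply Subtype.ext
    rw [Module.End.pow_restrict m hBm (fun w hw => by
      rw [hm w hw]; exact Submodule.zero_mem _)]
    rw [LinearMap.coe_restrict_apply, hm y y.2]
    rfl

open Polynomial in
private theorem qua_coprime (n : ℕ) :
    IsCoprime ((X - C (1 : ℂ)) ^ n : ℂ[X]) ((X - C (-1 : ℂ)) ^ n) := by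
  apply IsCoprime.pow
  apply Polynomial.isCoprime_X_sub_C_of_isUnit_sub
  norm_num

open Polynomial in
private theorem qua_three {n : ℕ} (A : Matrix (Fin n) (Fin n) ℂ)
    (hA : ∀ i j, j < i → A i j = 0) (hcase : ∀ i, A i i = 1 ∨ A i i = -1) :
    aeval A ((X - C (1 : ℂ)) ^ n * (X - C (-1 : ℂ)) ^ n : ℂ[X]) = 0 := by
  have hch : A.charpoly = ∏ i : Fin n, (X - C (A i i)) :=
    Matrix.charpoly_of_isUpperTriangular A (fun i j hij => hA i j hij)
  have hdvd : A.charpoly ∣ ((X - C (1 : ℂ)) ^ n * (X - C (-1 : ℂ)) ^ n : ℂ[X]) := by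
    have e : ((X - C (1 : ℂ)) ^ n * (X - C (-1 : ℂ)) ^ n : ℂ[X]) =
        ∏ _i : Fin n, ((X - C (1 : ℂ)) * (X - C (-1 : ℂ))) := by
      rw [Finset.prod_const, Finset.card_univ, Fintype.card_fin, mul_pow]
    rw [e, hch]
    apply Finset.prod_dvd_prod_of_dvd
    intro i _
    rcases hcase i with h | h
    · rw [h]
      exact Dvd.intro _ rfl
    · rw [h]
      exact Dvd.intro_left _ rfl
  obtain ⟨q, hq⟩ := hdvd
  rw [hq, map_mul, Matrix.aeval_self_charpoly, zero_mul]

open Polynomial in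
private theorem qua_four {n : ℕ} (A : Matrix (Fin n) (Fin n) ℂ)
    (hA : ∀ i j, j < i → A i j = 0) (hcase : ∀ i, A i i = 1 ∨ A i i = -1) :
    ∃ P : Matrix (Fin n) (Fin n) ℂ, P * P = 1 ∧ P * A * (P * A) = 1 ∧
      P.trace = (if Even n then 0 else 1) := by
  have hdet : A.det ≠ 0 := by
    have : A.det = ∏ i, A i i := Matrix.det_of_isUpperTriangular (fun i j hij => hA i j hij)
    rw [this]
    refine Finset.prod_ne_zero_iff.mpr fun i _ => ?_
    rcases hcase i with h | h <;> rw [h] <;> norm_num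
  have hdu : IsUnit A.det := isUnit_iff_ne_zero.mpr hdet
  have hAA : A * A⁻¹ = 1 := Matrix.mul_nonsing_inv A hdu
  have hAA' : A⁻¹ * A = 1 := Matrix.nonsing_inv_mul A hdu
  set B : Module.End ℂ (Fin n → ℂ) := Matrix.toLinAlgEquiv' A with hB
  set B' : Module.End ℂ (Fin n → ℂ) := Matrix.toLinAlgEquiv' A⁻¹ with hB'
  have hBB : B * B' = 1 := by rw [hB, hB', ← map_mul, hAA, map_one]
  have hBB' : B' * B = 1 := by rw [hB, hB', ← map_mul, hAA', map_one]
  have haev : ∀ p : ℂ[X], aeval B p = Matrix.toLinAlgEquiv' (aeval A p) := fun p => by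
    rw [hB]
    exact Polynomial.aeval_algHom_apply (Matrix.toLinAlgEquiv'.toAlgHom) A p
  have hc : ∀ p : ℂ[X], ∀ y, aeval B p (B y) = B (aeval B p y) := by
    intro p y
    have : aeval B p * B = B * aeval B p := by
      have h1 : aeval B (p * X) = aeval B (X * p) := by rw [mul_comm]
      simpa using h1
    exact LinearMap.congr_fun this y
  have hc' : ∀ p : ℂ[X], ∀ y, aeval B p (B' y) = B' (aeval B p y) := by
    intro p y
    have e1 : B (B' y) = y := LinearMap.congr_fun hBB y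
    have e2 : ∀ z, B' (B z) = z := fun z => LinearMap.congr_fun hBB' z
    conv_rhs => rw [← e1, hc, e2]
  have hcop := qua_coprime n
  set p : ℂ[X] := (X - C (1 : ℂ)) ^ n with hp
  set q : ℂ[X] := (X - C (-1 : ℂ)) ^ n with hq
  have hcompl : IsCompl (LinearMap.ker (aeval B p)) (LinearMap.ker (aeval B q)) := by
    refine ⟨disjoint_ker_aeval_of_isCoprime B hcop, ?_⟩
    rw [codisjoint_iff, sup_ker_aeval_eq_ker_aeval_mul_of_coprime B hcop, haev,
      qua_three A hA hcase, map_zero, LinearMap.ker_zero]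
  have hinv : ∀ r : ℂ[X], ∀ y ∈ LinearMap.ker (aeval B r), B y ∈ LinearMap.ker (aeval B r) := by
    intro r y hy
    rw [LinearMap.mem_ker] at hy ⊢
    rw [hc, hy, map_zero]
  have hinv' : ∀ r : ℂ[X], ∀ y ∈ LinearMap.ker (aeval B r), B' y ∈ LinearMap.ker (aeval B r) := by
    intro r y hy
    rw [LinearMap.mem_ker] at hy ⊢
    rw [hc', hy, map_zero]
  obtain ⟨P1, hP1, hP1B, hP1t⟩ := qua_two 1 (by norm_num) B B' hBB (LinearMap.ker (aeval B p))
    (hinv p) (hinv' p) n (by
      intro y hy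
      rw [LinearMap.mem_ker, hp, map_pow, map_sub, aeval_X, aeval_C] at hy
      exact hy)
  obtain ⟨P2, hP2, hP2B, hP2t⟩ := qua_two (-1) (by norm_num) B B' hBB
    (LinearMap.ker (aeval B q)) (hinv q) (hinv' q) n (by
      intro y hy
      rw [LinearMap.mem_ker, hq, map_pow, map_sub, aeval_X, aeval_C] at hy
      exact hy)
  obtain ⟨R, hR, hRB, hRt⟩ := comb _ _ hcompl B B' (hinv p) (hinv q) (hinv' p) (hinv' q) P1 P2
    hP1 hP2 hP1B hP2B hP1t hP2t
  have hback : Matrix.toLinAlgEquiv' (LinearMap.toMatrixAlgEquiv' R) = R :=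
    Matrix.toLinAlgEquiv'_toMatrixAlgEquiv' R
  refine ⟨LinearMap.toMatrixAlgEquiv' R, ?_, ?_, ?_⟩
  · rw [← map_mul, hR, map_one]
  · apply Matrix.toLinAlgEquiv'.injective
    rw [map_mul, map_mul, hback, ← hB, map_one, hRB]
    calc B' * R * (B' * R) = B' * R * (R * B) := by rw [hRB]
      _ = B' * (R * R) * B := by simp only [mul_assoc]
      _ = 1 := by rw [hR, mul_one, hBB']
  · have h1 := Matrix.trace_toLin'_eq (LinearMap.toMatrixAlgEquiv' R)
    have h2 : Matrix.toLin' (LinearMap.toMatrixAlgEquiv' R) = R := hback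
    rw [← h1, h2, hRt, tgt, Module.finrank_fin_fun]

theorem quasi {n : ℕ} (A Q A' : Matrix (Fin n) (Fin n) ℂ) (hQ : Q.det ≠ 0)
    (hA' : ∀ i j, j < i → A' i j = 0) (hAQ : A * Q = Q * A')
    (hcase : ∀ i, A' i i = 1 ∨ A' i i = -1) :
    ∃ P : Matrix (Fin n) (Fin n) ℂ, P * P = 1 ∧ P * A * (P * A) = 1 ∧
      P.trace = (if Even n then 0 else 1) := by
  obtain ⟨P, hP, hPA, hPt⟩ := qua_four A' hA' hcase
  have hQu : IsUnit Q.det := isUnit_iff_ne_zero.mpr hQ
  have hQQ : Q * Q⁻¹ = 1 := Matrix.mul_nonsing_inv Q hQu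
  have hQQ' : Q⁻¹ * Q = 1 := Matrix.nonsing_inv_mul Q hQu
  have hA : A = Q * A' * Q⁻¹ := by rw [← hAQ, mul_assoc, hQQ, mul_one]
  refine ⟨Q * P * Q⁻¹, ?_, ?_, ?_⟩
  · calc Q * P * Q⁻¹ * (Q * P * Q⁻¹) = Q * (P * (Q⁻¹ * Q) * P) * Q⁻¹ := by simp only [mul_assoc]
      _ = 1 := by rw [hQQ', mul_one, hP, mul_one, hQQ]
  · rw [hA]
    calc Q * P * Q⁻¹ * (Q * A' * Q⁻¹) * (Q * P * Q⁻¹ * (Q * A' * Q⁻¹))
        = Q * (P * (Q⁻¹ * Q) * A' * (Q⁻¹ * Q) * (P * (Q⁻¹ * Q) * A')) * Q⁻¹ := by
          simp only [mul_assoc]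
      _ = 1 := by rw [hQQ']; simp only [mul_one]; rw [hPA, mul_one, hQQ]
  · rw [Matrix.trace_mul_cycle, hQQ', one_mul, hPt]

end Pool.Agent.INU
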