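import Mathlib

/-!
MODULE SIM. Two involutions with the same trace are conjugate.

PROOF. For an involution P put E = (1/2) (1 + P) (idempotent), as linear maps of V = Fin n → ℂ. trace E = finrank (range E)
(LinearMap.IsProj.trace, or LinearMap.IsIdempotentElem...). So the ranges of E and of E' (the one of P') have the same
dimension, and so have the ranges of 1 - E and 1 - E' (kernels). V = range E ⊕ range (1 - E). Choose linear equivalences
range E' ≃ range E, range (1 - E') ≃ range (1 - E) (LinearEquiv.ofFinrankEq) and let R be their sum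
(Submodule.prodEquivOfIsCompl): R is invertible and P * R = R * P'.
-/

namespace Pool.Agent.INU

open Matrix

private theorem sim_compl {V : Type} [AddCommGroup V] [Module ℂ V] (f : Module.End ℂ V)
    (hf : f * f = 1) : IsCompl (LinearMap.ker (f - 1)) (LinearMap.ker (f + 1)) := by
  have hff : ∀ x, f (f x) = x := fun x => by
    simpa [Module.End.mul_apply] using LinearMap.congr_fun hf x
  refine ⟨?_, ?_⟩
  · rw [Submodule.disjoint_def]
    intro x h1 h2
    rw [LinearMap.mem_ker, LinearMap.sub_apply, Module.End.one_apply, sub_eq_zero] at h1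
    rw [LinearMap.mem_ker, LinearMap.add_apply, Module.End.one_apply, h1] at h2
    have : (2 : ℂ) • x = 0 := by rw [two_smul]; exact h2
    exact (smul_eq_zero.mp this).resolve_left two_ne_zero
  · rw [codisjoint_iff, Submodule.eq_top_iff']
    intro x
    rw [Submodule.mem_sup]
    refine ⟨(1 / 2 : ℂ) • (x + f x), ?_, (1 / 2 : ℂ) • (x - f x), ?_, ?_⟩
    · rw [LinearMap.mem_ker, LinearMap.sub_apply, Module.End.one_apply, map_smul, map_add, hff,
        add_comm (f x), sub_self]
    · rw [LinearMap.mem_ker, LinearMap.add_apply, Module.End.one_apply, map_smul, map_sub, hff,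
        ← smul_add]
      simp
    · rw [← smul_add, add_add_sub_cancel, ← two_smul ℂ x, smul_smul]
      norm_num

private theorem sim_trace {V : Type} [AddCommGroup V] [Module ℂ V] [FiniteDimensional ℂ V]
    (f : Module.End ℂ V) (hf : f * f = 1) :
    (Module.finrank ℂ (LinearMap.ker (f - 1)) : ℂ) =
      (1 / 2 : ℂ) * (Module.finrank ℂ V + LinearMap.trace ℂ V f) := by
  have hff : ∀ x, f (f x) = x := fun x => by
    simpa [Module.End.mul_apply] using LinearMap.congr_fun hf x
  have h : LinearMap.IsProj (LinearMap.ker (f - 1)) ((1 / 2 : ℂ) • (1 + f)) := by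
    refine ⟨?_, ?_⟩
    · intro x
      rw [LinearMap.mem_ker, LinearMap.sub_apply, Module.End.one_apply, LinearMap.smul_apply,
        LinearMap.add_apply, Module.End.one_apply, map_smul, map_add, hff, add_comm (f x),
        sub_self]
    · intro x hx
      rw [LinearMap.mem_ker, LinearMap.sub_apply, Module.End.one_apply, sub_eq_zero] at hx
      rw [LinearMap.smul_apply, LinearMap.add_apply, Module.End.one_apply, hx, ← two_smul ℂ x,
        smul_smul]
      norm_num
  rw [← h.trace, map_smul, map_add, LinearMap.trace_one, smul_eq_mul]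

theorem invol_similar {n : ℕ} (P P' : Matrix (Fin n) (Fin n) ℂ) (hP : P * P = 1)
    (hP' : P' * P' = 1) (ht : P.trace = P'.trace) :
    ∃ R : Matrix (Fin n) (Fin n) ℂ, R.det ≠ 0 ∧ P * R = R * P' := by
  set f : Module.End ℂ (Fin n → ℂ) := Matrix.toLin' P with hfdef
  set g : Module.End ℂ (Fin n → ℂ) := Matrix.toLin' P' with hgdef
  have hf : f * f = 1 := by
    rw [hfdef, Module.End.mul_eq_comp, ← Matrix.toLin'_mul, hP, Matrix.toLin'_one]
    rfl
  have hg : g * g = 1 := by
    rw [hgdef, Module.End.mul_eq_comp, ← Matrix.toLin'_mul, hP', Matrix.toLin'_one]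
    rfl
  have htf : LinearMap.trace ℂ _ f = LinearMap.trace ℂ _ g := by
    rw [hfdef, hgdef, Matrix.trace_toLin'_eq, Matrix.trace_toLin'_eq, ht]
  have c1 := sim_compl f hf
  have c2 := sim_compl g hg
  have d1 : Module.finrank ℂ (LinearMap.ker (g - 1)) = Module.finrank ℂ (LinearMap.ker (f - 1)) := by
    have h1 := sim_trace f hf
    have h2 := sim_trace g hg
    rw [htf, ← h2] at h1
    exact_mod_cast h1.symm
  have d2 : Module.finrank ℂ (LinearMap.ker (g + 1)) = Module.finrank ℂ (LinearMap.ker (f + 1)) := by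
    have h1 := Submodule.finrank_add_eq_of_isCompl c1
    have h2 := Submodule.finrank_add_eq_of_isCompl c2
    omega
  let e1 := LinearEquiv.ofFinrankEq (R := ℂ) _ _ d1
  let e2 := LinearEquiv.ofFinrankEq (R := ℂ) _ _ d2
  let R : (Fin n → ℂ) ≃ₗ[ℂ] (Fin n → ℂ) := (Submodule.prodEquivOfIsCompl _ _ c2).symm ≪≫ₗ
    (e1.prodCongr e2) ≪≫ₗ (Submodule.prodEquivOfIsCompl _ _ c1)
  have hRR : f * R.toLinearMap = R.toLinearMap * g := by
    apply LinearMap.ext
    intro x
    obtain ⟨⟨u, w⟩, rfl⟩ := (Submodule.prodEquivOfIsCompl _ _ c2).surjective x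
    have hu : g (u : Fin n → ℂ) = u := by
      have := u.2
      rwa [LinearMap.mem_ker, LinearMap.sub_apply, Module.End.one_apply, sub_eq_zero] at this
    have hw : g (w : Fin n → ℂ) = -w := by
      have := w.2
      rwa [LinearMap.mem_ker, LinearMap.add_apply, Module.End.one_apply,
        add_eq_zero_iff_eq_neg] at this
    have hu' : f (e1 u : Fin n → ℂ) = e1 u := by
      have := (e1 u).2
      rwa [LinearMap.mem_ker, LinearMap.sub_apply, Module.End.one_apply, sub_eq_zero] at this
    have hw' : f (e2 w : Fin n → ℂ) = -e2 w := by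
      have := (e2 w).2
      rwa [LinearMap.mem_ker, LinearMap.add_apply, Module.End.one_apply,
        add_eq_zero_iff_eq_neg] at this
    have hgx : g (Submodule.prodEquivOfIsCompl _ _ c2 (u, w)) =
        Submodule.prodEquivOfIsCompl _ _ c2 (u, -w) := by
      simp [hu, hw]
    have hR : ∀ u w, R (Submodule.prodEquivOfIsCompl _ _ c2 (u, w)) =
        (e1 u : Fin n → ℂ) + (e2 w : Fin n → ℂ) := by
      intro u w
      show Submodule.prodEquivOfIsCompl _ _ c1 ((e1.prodCongr e2)
        ((Submodule.prodEquivOfIsCompl _ _ c2).symm (Submodule.prodEquivOfIsCompl _ _ c2 (u, w)))) = _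
      rw [LinearEquiv.symm_apply_apply]
      simp
    rw [Module.End.mul_apply, Module.End.mul_apply, hgx, LinearEquiv.coe_coe, hR, hR, map_add,
      hu', hw', map_neg, Submodule.coe_neg]
  refine ⟨LinearMap.toMatrix' R.toLinearMap, ?_, ?_⟩
  · rw [LinearMap.det_toMatrix']
    exact R.isUnit_det'.ne_zero
  · apply Matrix.toLin'.injective
    rw [Matrix.toLin'_mul, Matrix.toLin'_mul, Matrix.toLin'_toMatrix']
    exact hRR

end Pool.Agent.INU
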