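import Pool.Agent.INU.LFT

/-!
MODULE TUP. An explicit involution `P0` (antidiagonal with entries `2 ^ cexp i`), trace `n mod 2`, all
of whose formal maps are products of four involutions (`n >= 4`).

PROOF. d i = 2 ^ (cexp i) (zpow), d (rev i) = (d i)⁻¹ (cexp_rev), D = diagonal d, T2 = Mon Fin.rev 1, P0 = D * T2 = Mon Fin.rev d.
P0 * P0 = 1 (Mon_mul). Trace: entry (i,i) is d i if rev i = i (then cexp i = 0, d i = 1; this happens for exactly one
i if n is odd, never if n is even).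
b = (1,...,1). κ : Fin n → ℂ with κ (rev i) = κ i, κ i ≠ 0 if cexp i ≠ 0, κ i = 0 if cexp i = 0, and ∑ κ = 0:
κ i = 1 for i ≠ 0, n-1 (and cexp i ≠ 0), κ 0 = κ (n-1) = - (number of i ∉ {0, n-1} with cexp i ≠ 0)/2, nonzero since n >= 4.
φ i = κ i / (d i - (d i)⁻¹) (0 in the middle): φ (rev i) = - φ i, so φ ⬝ᵥ b = 0; φ ⬝ᵥ (P0 *ᵥ b) = ∑ φ i * d i
= (1/2) ∑ (φ i * d i + φ (rev i) * d (rev i)) = (1/2) ∑ φ i (d i - (d i)⁻¹) = (1/2) ∑ κ i = 0.
E = 1 + vecMulVec b φ. A row u with u ⬝ᵥ b = 1, u ⬝ᵥ d = 0 and u i ≠ 0 if cexp i = 0: supported on 0, n-1 and (n odd) the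
middle: n odd: u mid = 1, u 0 = x, u (n-1) = -x, x (d 0 - (d 0)⁻¹) = -1; n even: u 0 = x, u (n-1) = y, x + y = 1,
x d 0 + y (d 0)⁻¹ = 0. (P0 *ᵥ b = d.)
π = vecMulVec b u + vecMulVec d (u ᵥ* P0): π * π = π, P0 * π = π * P0, φ ᵥ* π = 0, π *ᵥ b = b. z = -1 + 2 • π: z * z = 1,
z *ᵥ b = b, φ ᵥ* z = - φ, so z * E⁻¹ * z = E, where E⁻¹ = 1 - vecMulVec b φ.
T = ![P0 * z, z * E⁻¹, T2, T2 * E]: involutions (T2 * E * T2 = 1 + vecMulVec b (φ ∘ rev) = E⁻¹), T0 T1 T2 T3 = P0,
T2 * T3 = E: word w = [2, 3].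
Gen T b: D = P0 * T2 = T0 T1 T2 T3 T2 is diagonal with distinct entries (cexp_inj), b has no zero coordinate:
single_mem_of_stable, eq_top_of_single. CoGen T φ: the same with rows gives e_i^T for all i with cexp i ≠ 0; for the middle
index mid (n odd): z = P0 * T0, the coordinate mid of e_0^T z is 2 * u mid * (1 + d 0) ≠ 0, and e_0^T z ∈ W: subtract the
coordinates ≠ mid (or apply single_mem_of_stable again). LP_four.
-/

namespace Pool.Agent.INU

open Matrix Pool.Agent.RevMaps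

variable {n : ℕ}

private theorem TUP_norm (k : ℤ) : ‖(2 : ℂ) ^ k‖ = (2 : ℝ) ^ k := by
  rw [norm_zpow]
  simp

private theorem TUP_inj {a b : ℤ} (h : (2 : ℂ) ^ a = (2 : ℂ) ^ b) : a = b := by
  have h1 := congrArg norm h
  rw [TUP_norm, TUP_norm] at h1
  exact (zpow_right_injective₀ (by norm_num : (0 : ℝ) < 2) (by norm_num : (2 : ℝ) ≠ 1)) h1

private theorem TUP_d_ne (i : Fin n) : (2 : ℂ) ^ (cexp i) ≠ 0 := zpow_ne_zero _ two_ne_zero

private theorem TUP_d_rev (i : Fin n) : (2 : ℂ) ^ (cexp (Fin.rev i)) = ((2 : ℂ) ^ (cexp i))⁻¹ := by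
  rw [cexp_rev, _root_.zpow_neg]

private theorem TUP_sub_ne {i : Fin n} (hi : cexp i ≠ 0) :
    (2 : ℂ) ^ (cexp i) - ((2 : ℂ) ^ (cexp i))⁻¹ ≠ 0 := by
  intro h
  rw [← TUP_d_rev, sub_eq_zero] at h
  have h1 := TUP_inj h
  rw [cexp_rev] at h1
  omega

private theorem TUP_add_ne {i : Fin n} (hi : cexp i ≠ 0) : 1 + (2 : ℂ) ^ (cexp i) ≠ 0 := by
  intro h
  have h1 : (2 : ℂ) ^ (cexp i) = -1 := by linear_combination h
  have h2 := congrArg norm h1
  rw [TUP_norm, norm_neg, norm_one, ← zpow_zero (2 : ℝ)] at h2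
  exact hi ((zpow_right_injective₀ (by norm_num : (0 : ℝ) < 2) (by norm_num : (2 : ℝ) ≠ 1)) h2)

private theorem TUP_rev_eq {i : Fin n} : Fin.rev i = i ↔ cexp i = 0 := by
  constructor
  · intro h
    have h1 := cexp_rev i
    rw [h] at h1
    omega
  · intro h
    apply cexp_inj
    rw [cexp_rev, h]
    rfl

private theorem TUP_phi (hn : 4 ≤ n) : ∃ φ : Fin n → ℂ, (∀ i, φ (Fin.rev i) = - φ i) ∧
    (∀ i, cexp i ≠ 0 → φ i ≠ 0) ∧ ∑ i, φ i * (2 : ℂ) ^ (cexp i) = 0 := by
  classical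
  set z : Fin n := ⟨0, by omega⟩ with hz
  set l : Fin n := ⟨n - 1, by omega⟩ with hl
  have hcz : cexp z ≠ 0 := by unfold cexp; simp only [hz]; omega
  have hcl : cexp l ≠ 0 := by unfold cexp; simp only [hl]; omega
  have hzl : z ≠ l := by
    intro h
    have := congrArg Fin.val h
    simp only [hz, hl] at this
    omega
  have hrz : Fin.rev z = l := by
    apply Fin.ext
    rw [Fin.val_rev]
  have hrl : Fin.rev l = z := by rw [← hrz, Fin.rev_rev]
  have hrz' : ∀ i, Fin.rev i = z ↔ i = l := by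
    intro i
    rw [← hrl]
    exact ⟨fun h => Fin.rev_injective h, fun h => by rw [h]⟩
  have hrl' : ∀ i, Fin.rev i = l ↔ i = z := by
    intro i
    rw [← hrz]
    exact ⟨fun h => Fin.rev_injective h, fun h => by rw [h]⟩
  set o : Fin n → ℂ := fun i => if i ≠ z ∧ i ≠ l ∧ cexp i ≠ 0 then 1 else 0 with ho
  set N : ℂ := ∑ i, o i with hN
  have hN0 : N ≠ 0 := by
    have h1 : N = ((Finset.univ.filter (fun i : Fin n => i ≠ z ∧ i ≠ l ∧ cexp i ≠ 0)).card : ℂ) := by
      rw [hN, ho, Finset.sum_boole]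
    rw [h1]
    have h2 : 0 < (Finset.univ.filter (fun i : Fin n => i ≠ z ∧ i ≠ l ∧ cexp i ≠ 0)).card := by
      rw [Finset.card_pos]
      refine ⟨⟨1, by omega⟩, ?_⟩
      rw [Finset.mem_filter]
      refine ⟨Finset.mem_univ _, ?_, ?_, ?_⟩
      · intro h
        have := congrArg Fin.val h
        simp only [hz] at this
        omega
      · intro h
        have := congrArg Fin.val h
        simp only [hl] at this
        omega
      · unfold cexp
        simp only
        omega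
    exact_mod_cast h2.ne'
  set κ : Fin n → ℂ := fun i => o i + ((if i = z then - N / 2 else 0) +
    (if i = l then - N / 2 else 0)) with hκ
  have hκs : ∑ i, κ i = 0 := by
    simp only [hκ]
    rw [Finset.sum_add_distrib, Finset.sum_add_distrib, Finset.sum_ite_eq', Finset.sum_ite_eq']
    simp only [Finset.mem_univ, if_true, ← hN]
    ring
  have hor : ∀ i, o (Fin.rev i) = o i := by
    intro i
    simp only [ho]
    have : (Fin.rev i ≠ z ∧ Fin.rev i ≠ l ∧ cexp (Fin.rev i) ≠ 0) ↔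
        (i ≠ z ∧ i ≠ l ∧ cexp i ≠ 0) := by
      rw [Ne, hrz', Ne, hrl', cexp_rev]
      constructor
      · rintro ⟨h1, h2, h3⟩
        exact ⟨h2, h1, by omega⟩
      · rintro ⟨h1, h2, h3⟩
        exact ⟨h2, h1, by omega⟩
    by_cases h : i ≠ z ∧ i ≠ l ∧ cexp i ≠ 0
    · rw [if_pos h, if_pos (this.mpr h)]
    · rw [if_neg h, if_neg (fun h' => h (this.mp h'))]
  have hκr : ∀ i, κ (Fin.rev i) = κ i := by
    intro i
    simp only [hκ, hor, hrz', hrl']
    ring
  have hκ0 : ∀ i, cexp i = 0 → κ i = 0 := by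
    intro i hi
    have h1 : i ≠ z := by rintro rfl; exact hcz hi
    have h2 : i ≠ l := by rintro rfl; exact hcl hi
    simp [hκ, ho, h1, h2, hi]
  have hκ1 : ∀ i, cexp i ≠ 0 → κ i ≠ 0 := by
    intro i hi
    by_cases h1 : i = z
    · subst h1
      simp only [hκ, ho]
      simp [hzl, hN0]
    · by_cases h2 : i = l
      · subst h2
        simp only [hκ, ho]
        simp [h1, hN0]
      · simp [hκ, ho, h1, h2, hi]
  refine ⟨fun i => κ i / ((2 : ℂ) ^ (cexp i) - ((2 : ℂ) ^ (cexp i))⁻¹), ?_, ?_, ?_⟩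
  · intro i
    simp only
    rw [hκr, TUP_d_rev, inv_inv, ← neg_sub, div_neg]
  · intro i hi
    exact div_ne_zero (hκ1 i hi) (TUP_sub_ne hi)
  · set φ : Fin n → ℂ := fun i => κ i / ((2 : ℂ) ^ (cexp i) - ((2 : ℂ) ^ (cexp i))⁻¹) with hφ
    have hφr : ∀ i, φ (Fin.rev i) = - φ i := by
      intro i
      simp only [hφ]
      rw [hκr, TUP_d_rev, inv_inv, ← neg_sub, div_neg]
    have h1 : ∑ i, φ i * (2 : ℂ) ^ (cexp i) = ∑ i, φ (Fin.rev i) * (2 : ℂ) ^ (cexp (Fin.rev i)) :=
      (Equiv.sum_comp Fin.revPerm (fun i => φ i * (2 : ℂ) ^ (cexp i))).symm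
    have h2 : ∑ i, φ i * (2 : ℂ) ^ (cexp i) + ∑ i, φ i * (2 : ℂ) ^ (cexp i) = ∑ i, κ i := by
      nth_rewrite 2 [h1]
      rw [← Finset.sum_add_distrib]
      apply Finset.sum_congr rfl
      intro i _
      rw [hφr, TUP_d_rev]
      by_cases hi : cexp i = 0
      · rw [hκ0 i hi]
        simp only [hφ, hκ0 i hi]
        simp
      · have h3 := TUP_sub_ne hi
        have h4 : φ i * ((2 : ℂ) ^ (cexp i) - ((2 : ℂ) ^ (cexp i))⁻¹) = κ i := by
          simp only [hφ]
          exact div_mul_cancel₀ _ h3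
        linear_combination h4
    rw [hκs] at h2
    linear_combination h2 / 2

private theorem TUP_u (hn : 4 ≤ n) : ∃ u : Fin n → ℂ, ∑ i, u i = 1 ∧
    ∑ i, u i * (2 : ℂ) ^ (cexp i) = 0 ∧ ∀ i, cexp i = 0 → u i ≠ 0 := by
  classical
  set z : Fin n := ⟨0, by omega⟩ with hz
  set l : Fin n := ⟨n - 1, by omega⟩ with hl
  have hcz : cexp z ≠ 0 := by unfold cexp; simp only [hz]; omega
  have hcl : cexp l ≠ 0 := by unfold cexp; simp only [hl]; omega
  have hrz : Fin.rev z = l := by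
    apply Fin.ext
    rw [Fin.val_rev]
  have hdl : (2 : ℂ) ^ (cexp l) = ((2 : ℂ) ^ (cexp z))⁻¹ := by rw [← hrz, TUP_d_rev]
  have hne := TUP_sub_ne hcz
  have hd0 := TUP_d_ne z
  set e : ℂ := (2 : ℂ) ^ (cexp z) with he
  rcases Nat.even_or_odd n with hev | hodd
  · refine ⟨fun i => (if i = z then - e⁻¹ / (e - e⁻¹) else 0) + (if i = l then e / (e - e⁻¹) else 0),
      ?_, ?_, ?_⟩
    · rw [Finset.sum_add_distrib, Finset.sum_ite_eq', Finset.sum_ite_eq']
      simp only [Finset.mem_univ, if_true]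
      rw [← add_div, neg_add_eq_sub, div_self hne]
    · simp only [add_mul, ite_mul, zero_mul]
      rw [Finset.sum_add_distrib, Finset.sum_ite_eq', Finset.sum_ite_eq']
      simp only [Finset.mem_univ, if_true]
      rw [hdl, ← he]
      field_simp
      ring
    · intro i hi
      exfalso
      obtain ⟨m, hm⟩ := hev
      unfold cexp at hi
      omega
  · obtain ⟨m, hm⟩ := hodd
    set c : Fin n := ⟨m, by omega⟩ with hc
    have hcc : cexp c = 0 := by unfold cexp; simp only [hc]; omega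
    refine ⟨fun i => (if i = c then 1 else 0) + ((if i = z then - (e - e⁻¹)⁻¹ else 0) +
      (if i = l then (e - e⁻¹)⁻¹ else 0)), ?_, ?_, ?_⟩
    · rw [Finset.sum_add_distrib, Finset.sum_add_distrib, Finset.sum_ite_eq', Finset.sum_ite_eq',
        Finset.sum_ite_eq']
      simp only [Finset.mem_univ, if_true]
      ring
    · simp only [add_mul, ite_mul, zero_mul]
      rw [Finset.sum_add_distrib, Finset.sum_add_distrib, Finset.sum_ite_eq', Finset.sum_ite_eq',
        Finset.sum_ite_eq']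
      simp only [Finset.mem_univ, if_true]
      rw [hdl, hcc, ← he, zpow_zero]
      have : - (e - e⁻¹)⁻¹ * e + (e - e⁻¹)⁻¹ * e⁻¹ = - ((e - e⁻¹)⁻¹ * (e - e⁻¹)) := by ring
      rw [this, inv_mul_cancel₀ hne]
      ring
    · intro i hi
      have h1 : i = c := cexp_inj (hi.trans hcc.symm)
      have h2 : i ≠ z := by rintro rfl; exact hcz hi
      have h3 : i ≠ l := by rintro rfl; exact hcl hi
      simp only
      rw [if_pos h1, if_neg h2, if_neg h3]
      norm_num

private theorem TUP_Mon_mulVec (w v : Fin n → ℂ) (i : Fin n) :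
    (Mon Fin.rev w *ᵥ v) i = w i * v (Fin.rev i) := by
  simp only [mulVec, dotProduct, Mon, Matrix.of_apply, ite_mul, zero_mul]
  rw [Finset.sum_ite_eq]
  simp

private theorem TUP_vecMul_Mon (w v : Fin n → ℂ) (j : Fin n) :
    (v ᵥ* Mon Fin.rev w) j = v (Fin.rev j) * w (Fin.rev j) := by
  simp only [vecMul, dotProduct, Mon, Matrix.of_apply, mul_ite, mul_zero]
  rw [Finset.sum_eq_single (Fin.rev j)]
  · rw [if_pos (Fin.rev_rev j)]
  · intro i _ hi
    rw [if_neg]
    intro h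
    apply hi
    rw [← h, Fin.rev_rev]
  · simp

theorem tuple_two {n : ℕ} (hn : 4 ≤ n) :
    ∃ P0 : Matrix (Fin n) (Fin n) ℂ, P0 * P0 = 1 ∧ P0.trace = (if Even n then 0 else 1) ∧
      LP 4 P0 := by
  classical
  obtain ⟨φ, hφr, hφ0, hφd⟩ := TUP_phi hn
  obtain ⟨u, hub, hud, hu0⟩ := TUP_u hn
  set d : Fin n → ℂ := fun i => (2 : ℂ) ^ (cexp i) with hd
  set b : Fin n → ℂ := fun _ => 1 with hb
  have hdr : ∀ i, d i * d (Fin.rev i) = 1 := by
    intro i
    simp only [hd]
    rw [TUP_d_rev, mul_inv_cancel₀ (TUP_d_ne i)]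
  have hdinj : Function.Injective d := fun i j h => cexp_inj (TUP_inj h)
  set P0 : Matrix (Fin n) (Fin n) ℂ := Mon Fin.rev d with hP0
  set T2 : Matrix (Fin n) (Fin n) ℂ := Mon Fin.rev (fun _ => 1) with hT2
  have hPP : P0 * P0 = 1 := by
    rw [hP0, Mon_mul _ Fin.rev_rev, show (fun i => d i * d (Fin.rev i)) = fun _ => (1 : ℂ) from
      funext hdr, diagonal_one]
  have hTT : T2 * T2 = 1 := by
    rw [hT2, Mon_mul _ Fin.rev_rev]
    simp
  have hPT : P0 * T2 = diagonal d := by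
    rw [hP0, hT2, Mon_mul _ Fin.rev_rev]
    simp
  have hPb : P0 *ᵥ b = d := by
    funext i
    rw [hP0, TUP_Mon_mulVec]
    simp [hb]
  have hPd : P0 *ᵥ d = b := by
    rw [← hPb, Matrix.mulVec_mulVec, hPP, Matrix.one_mulVec]
  have hTb : T2 *ᵥ b = b := by
    funext i
    rw [hT2, TUP_Mon_mulVec]
    simp [hb]
  have hφT : φ ᵥ* T2 = -φ := by
    funext j
    rw [hT2, TUP_vecMul_Mon, mul_one, hφr]
    rfl
  have hφb : φ ⬝ᵥ b = 0 := by
    have h1 : ∑ i, φ i = ∑ i, φ (Fin.rev i) := (Equiv.sum_comp Fin.revPerm φ).symm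
    simp only [hφr, Finset.sum_neg_distrib] at h1
    simp only [dotProduct, hb, mul_one]
    linear_combination h1 / 2
  have hφd' : φ ⬝ᵥ d = 0 := hφd
  have hub' : u ⬝ᵥ b = 1 := by simpa [dotProduct, hb] using hub
  have hud' : u ⬝ᵥ d = 0 := hud
  set up : Fin n → ℂ := u ᵥ* P0 with hup
  have hupb : up ⬝ᵥ b = 0 := by
    rw [hup, ← Matrix.dotProduct_mulVec, hPb, hud']
  have hupd : up ⬝ᵥ d = 1 := by
    rw [hup, ← Matrix.dotProduct_mulVec, hPd, hub']
  have hupP : up ᵥ* P0 = u := by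
    rw [hup, Matrix.vecMul_vecMul, hPP, Matrix.vecMul_one]
  set pi : Matrix (Fin n) (Fin n) ℂ := vecMulVec b u + vecMulVec d up with hpi
  have hpi2 : pi * pi = pi := by
    rw [hpi]
    simp only [add_mul, mul_add, Matrix.vecMulVec_mul_vecMulVec, hub', hud', hupb, hupd, one_smul,
      zero_smul, Matrix.vecMulVec_zero, add_zero, zero_add]
  have hPpi : P0 * pi = pi * P0 := by
    rw [hpi, mul_add, add_mul, Matrix.mul_vecMulVec, Matrix.mul_vecMulVec, Matrix.vecMulVec_mul,
      Matrix.vecMulVec_mul, hPb, hPd, hupP, ← hup, add_comm]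
  have hpib : pi *ᵥ b = b := by
    rw [hpi, Matrix.add_mulVec, Matrix.vecMulVec_mulVec, Matrix.vecMulVec_mulVec, hub', hupb]
    simp
  have hφpi : φ ᵥ* pi = 0 := by
    rw [hpi, Matrix.vecMul_add, Matrix.vecMul_vecMulVec, Matrix.vecMul_vecMulVec, hφb, hφd']
    simp
  set z : Matrix (Fin n) (Fin n) ℂ := -1 + (2 : ℂ) • pi with hz
  have hzz : z * z = 1 := by
    rw [hz]
    simp only [add_mul, mul_add, Matrix.smul_mul, Matrix.mul_smul, hpi2, neg_mul, mul_neg,
      one_mul, mul_one]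
    module
  have hPz : P0 * z = z * P0 := by
    rw [hz, mul_add, add_mul, Matrix.smul_mul, Matrix.mul_smul, hPpi]
    simp
  have hzb : z *ᵥ b = b := by
    rw [hz, Matrix.add_mulVec, Matrix.smul_mulVec, hpib, Matrix.neg_mulVec, Matrix.one_mulVec]
    module
  have hφz : φ ᵥ* z = -φ := by
    rw [hz, Matrix.vecMul_add, Matrix.vecMul_smul, hφpi, Matrix.vecMul_neg, Matrix.vecMul_one]
    simp
  set E : Matrix (Fin n) (Fin n) ℂ := 1 + vecMulVec b φ with hE
  set E' : Matrix (Fin n) (Fin n) ℂ := 1 - vecMulVec b φ with hE'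
  have hbb : vecMulVec b φ * vecMulVec b φ = 0 := by
    rw [Matrix.vecMulVec_mul_vecMulVec, hφb, zero_smul, Matrix.vecMulVec_zero]
  have hEE' : E * E' = 1 := by
    rw [hE, hE', add_mul, mul_sub, mul_sub, hbb]
    simp
  have hE'E : E' * E = 1 := by
    rw [hE, hE', sub_mul, mul_add, mul_add, hbb]
    simp
  have hzEz : z * E' * z = E := by
    rw [hE', mul_sub, sub_mul, mul_one, hzz, Matrix.mul_vecMulVec, Matrix.vecMulVec_mul, hzb,
      hφz, Matrix.vecMulVec_neg, hE]
    simp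
  have hTET : T2 * E * T2 = E' := by
    rw [hE, mul_add, add_mul, mul_one, hTT, Matrix.mul_vecMulVec, Matrix.vecMulVec_mul, hTb,
      hφT, Matrix.vecMulVec_neg, hE']
    abel
  set T : Fin 4 → Matrix (Fin n) (Fin n) ℂ := ![P0 * z, z * E', T2, T2 * E] with hT
  have hTk : ∀ k, T k * T k = 1 := by
    intro k
    fin_cases k
    · show P0 * z * (P0 * z) = 1
      calc P0 * z * (P0 * z) = P0 * (z * P0) * z := by simp only [mul_assoc]
        _ = (P0 * P0) * (z * z) := by rw [← hPz]; simp only [mul_assoc]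
        _ = 1 := by rw [hPP, hzz, one_mul]
    · show z * E' * (z * E') = 1
      rw [← mul_assoc, hzEz, hEE']
    · exact hTT
    · show T2 * E * (T2 * E) = 1
      rw [← mul_assoc, hTET, hE'E]
  have hT23 : T 2 * T 3 = E := by
    show T2 * (T2 * E) = E
    rw [← mul_assoc, hTT, one_mul]
  have hT0123 : T 0 * T 1 * T 2 * T 3 = P0 := by
    rw [mul_assoc (T 0 * T 1), hT23]
    show P0 * z * (z * E') * E = P0
    calc P0 * z * (z * E') * E = P0 * (z * z) * (E' * E) := by simp only [mul_assoc]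
      _ = P0 := by rw [hzz, hE'E, mul_one, mul_one]
  have hφ0' : φ ≠ 0 := by
    intro h
    have h1 : cexp (⟨0, by omega⟩ : Fin n) ≠ 0 := by
      unfold cexp
      simp only
      omega
    exact hφ0 _ h1 (congrFun h _)
  have hb0 : b ≠ 0 := fun h => one_ne_zero (congrFun h (⟨0, by omega⟩ : Fin n))
  refine ⟨P0, hPP, ?_, ?_⟩
  · rw [Matrix.trace]
    have h1 : ∀ i, P0.diag i = if cexp i = 0 then 1 else 0 := by
      intro i
      rw [Matrix.diag_apply, hP0]
      simp only [Mon, Matrix.of_apply, TUP_rev_eq]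
      by_cases h : cexp i = 0
      · rw [if_pos h, if_pos h]
        simp [hd, h]
      · rw [if_neg h, if_neg h]
    rw [Finset.sum_congr rfl (fun i _ => h1 i)]
    rcases Nat.even_or_odd n with hev | hodd
    · rw [if_pos hev, Finset.sum_eq_zero]
      intro i _
      rw [if_neg]
      intro hi
      obtain ⟨m, hm⟩ := hev
      unfold cexp at hi
      omega
    · rw [if_neg (Nat.not_even_iff_odd.mpr hodd)]
      obtain ⟨m, hm⟩ := hodd
      rw [Finset.sum_eq_single (⟨m, by omega⟩ : Fin n)]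
      · rw [if_pos]
        unfold cexp
        simp only
        omega
      · intro j _ hj
        rw [if_neg]
        intro h
        apply hj
        unfold cexp at h
        apply Fin.ext
        simp only
        omega
      · simp
  · rw [← hT0123]
    apply LP_four T hTk b φ hb0 hφ0' hφb [2, 3]
    · simp only [List.map_cons, List.map_nil, List.prod_cons, List.prod_nil, mul_one]
      rw [hT23]
    · intro W hbW hW
      have hD : ∀ w ∈ W, (fun j => d j * w j) ∈ W := by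
        intro w hw
        have h1 := hW 0 _ (hW 1 _ (hW 2 _ (hW 3 _ (hW 2 w hw))))
        have h2 : T 0 *ᵥ (T 1 *ᵥ (T 2 *ᵥ (T 3 *ᵥ (T 2 *ᵥ w)))) = diagonal d *ᵥ w := by
          rw [← hPT, ← hT0123]
          simp only [Matrix.mulVec_mulVec, mul_assoc]
          rfl
        rw [h2] at h1
        convert h1 using 1
        funext j
        rw [Matrix.mulVec_diagonal]
      apply eq_top_of_single
      intro i
      exact single_mem_of_stable d hdinj W hD b hbW i one_ne_zero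
    · intro W hφW hW
      have hD : ∀ w ∈ W, (fun j => d j * w j) ∈ W := by
        intro w hw
        have h1 := hW 2 _ (hW 3 _ (hW 2 _ (hW 1 _ (hW 0 w hw))))
        have h2 : ((((w ᵥ* T 0) ᵥ* T 1) ᵥ* T 2) ᵥ* T 3) ᵥ* T 2 = w ᵥ* diagonal d := by
          rw [← hPT, ← hT0123]
          simp only [Matrix.vecMul_vecMul]
          rfl
        rw [h2] at h1
        convert h1 using 1
        funext j
        rw [Matrix.vecMul_diagonal, mul_comm]
      have hsing : ∀ i, cexp i ≠ 0 → (Pi.single i 1 : Fin n → ℂ) ∈ W := fun i hi =>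
        single_mem_of_stable d hdinj W hD φ hφW i (hφ0 i hi)
      apply eq_top_of_single
      intro i
      by_cases hi : cexp i = 0
      · obtain ⟨o, hov⟩ : ∃ o : Fin n, (o : ℕ) = 0 := ⟨⟨0, by omega⟩, rfl⟩
        have hco : cexp o ≠ 0 := by
          unfold cexp
          omega
        have hoi : o ≠ i := by rintro rfl; exact hco hi
        have h1 := hW 0 _ (hW 3 _ (hW 2 _ (hW 1 _ (hW 0 _ (hsing o hco)))))
        have h2 : (((((Pi.single o 1 : Fin n → ℂ) ᵥ* T 0) ᵥ* T 1) ᵥ* T 2) ᵥ* T 3) ᵥ* T 0 =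
            (Pi.single o 1 : Fin n → ℂ) ᵥ* z := by
          have h3 : T 0 * T 1 * T 2 * T 3 * T 0 = z := by
            rw [hT0123]
            show P0 * (P0 * z) = z
            rw [← mul_assoc, hPP, one_mul]
          rw [← h3]
          simp only [Matrix.vecMul_vecMul]
        rw [h2] at h1
        refine single_mem_of_stable d hdinj W hD _ h1 i ?_
        rw [Matrix.single_one_vecMul, Matrix.row_apply, hz, Matrix.add_apply, Matrix.neg_apply,
          Matrix.one_apply_ne hoi, Matrix.smul_apply, hpi, Matrix.add_apply, vecMulVec_apply,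
          vecMulVec_apply]
        have h4 : up i = u i := by
          rw [hup, hP0, TUP_vecMul_Mon, TUP_rev_eq.mpr hi]
          simp [hd, hi]
        rw [h4]
        have h5 : -0 + (2 : ℂ) • (b o * u i + d o * u i) = 2 * u i * (1 + d o) := by
          simp only [hb, smul_eq_mul]
          ring
        rw [h5]
        exact mul_ne_zero (mul_ne_zero two_ne_zero (hu0 i hi)) (TUP_add_ne hco)
      · exact hsing i hi

end Pool.Agent.INU
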