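import Pool.Agent.INU.CA1
import Pool.Agent.INU.TUP
import Pool.Agent.INU.QUA
import Pool.Agent.INU.SIM

/-!
Assembly: for `n >= 4` every formal map whose linear part has determinant `1` or `-1` is a product of five
involutions.
-/

namespace Pool.Agent.INU

open Matrix Pool.Agent.RevMaps

theorem case_two {n : ℕ} (hn : 4 ≤ n) (A Q A' : Matrix (Fin n) (Fin n) ℂ) (hQ : Q.det ≠ 0)
    (hA' : ∀ i j, j < i → A' i j = 0) (hAQ : A * Q = Q * A')
    (hcase : ∀ i, A' i i = 1 ∨ A' i i = -1) : LP 5 A := by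
  obtain ⟨P, hP, hPA, ht⟩ := quasi A Q A' hQ hA' hAQ hcase
  obtain ⟨P0, hP0, ht0, hL⟩ := tuple_two hn
  obtain ⟨R, hR, hPR⟩ := invol_similar P P0 hP hP0 (ht.trans ht0.symm)
  have h1 : LP 4 P := hL.of_similar hR hPR
  have h2 := h1.mul_invol hPA
  rwa [← mul_assoc, hP, one_mul] at h2

theorem five_all {n : ℕ} (hn : 4 ≤ n) (A : Matrix (Fin n) (Fin n) ℂ) (hA : A.det ^ 2 = 1) :
    LP 5 A := by
  obtain ⟨Q, A', hQ, hA', hAQ⟩ := exists_triangular n A
  by_cases hcase : ∃ i, A' i i ≠ 1 ∧ A' i i ≠ -1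
  · exact case_one (by omega) A Q A' hQ hA' hAQ hA hcase
  · push Not at hcase
    apply case_two hn A Q A' hQ hA' hAQ
    intro i
    by_cases h : A' i i = 1
    · exact Or.inl h
    · exact Or.inr (hcase i h)

/-- **Five involutions suffice for `n >= 4`.** -/
theorem five_involutions {n : ℕ} (hn : 4 ≤ n) (f : FMap n) (hf : (lin f).det ^ 2 = 1) :
    ∃ τ : Fin 5 → FMap n, (∀ k, τ k * τ k = 1) ∧ τ 0 * τ 1 * τ 2 * τ 3 * τ 4 = f :=
  (five_all hn (lin f) hf f rfl).five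

end Pool.Agent.INU
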