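import Pool.Agent.RevMaps.Four

/-!
MODULE JBK. The matrix `J = diagonal r + single i0 i1 1` with `r i0 = r i1`, `r i * r (κ i) = 1`, `κ` an
involution fixing `i0`, `i1`, is the product of the involutions `t0 = Mon κ s`
(`s i = -1` if `i = i1`, `1` otherwise) and `t0 * J`; powers of `J`.

PROOF. t0 * t0 = 1 by Mon_mul. t0 * J * t0 = diagonal (r ∘ κ) - single i0 i1 1, so
(t0 J)(t0 J) = (diagonal (r ∘ κ) - E)(diagonal r + E) = diagonal (r (κ i) * r i) + (r i0 - r i1) E = 1
with E = single i0 i1 1, E * E = 0. Powers by induction: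
J ^ (k+1) = diagonal (r ^ (k+1)) + (k+1) * r i0 ^ k • E.
-/

namespace Pool.Agent.INU

open Matrix Pool.Agent.RevMaps

variable {n : ℕ}

/-- Jordan matrix with one block of size two -/
noncomputable def JJm (r : Fin n → ℂ) (i0 i1 : Fin n) : Matrix (Fin n) (Fin n) ℂ :=
  diagonal r + Matrix.single i0 i1 1

/-- first involution -/
noncomputable def tt0 (κ : Fin n → Fin n) (i1 : Fin n) : Matrix (Fin n) (Fin n) ℂ :=
  Mon κ (fun i => if i = i1 then -1 else 1)

private theorem JBK_mon_single (κ : Fin n → Fin n) (w : Fin n → ℂ) (i0 i1 : Fin n)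
    (hκ : ∀ i, κ (κ i) = i) (hκ0 : κ i0 = i0) :
    Mon κ w * Matrix.single i0 i1 (1 : ℂ) = w i0 • Matrix.single i0 i1 (1 : ℂ) := by
  ext i j
  rw [Matrix.mul_apply, Finset.sum_eq_single i0]
  · rw [Matrix.smul_apply, Matrix.single_apply, Matrix.single_apply, smul_eq_mul]
    simp only [Mon, Matrix.of_apply]
    by_cases h : i0 = i
    · subst h
      simp [hκ0]
    · have h2 : κ i ≠ i0 := by
        intro h3
        have h4 := congrArg κ h3
        rw [hκ, hκ0] at h4
        exact h h4.symm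
      simp [h, h2]
  · intro k _ hk
    rw [Matrix.single_apply, if_neg (fun h => hk h.1.symm), mul_zero]
  · intro h
    exact absurd (Finset.mem_univ _) h

private theorem JBK_single_mon (κ : Fin n → Fin n) (w : Fin n → ℂ) (i0 i1 : Fin n)
    (hκ1 : κ i1 = i1) :
    Matrix.single i0 i1 (1 : ℂ) * Mon κ w = w i1 • Matrix.single i0 i1 (1 : ℂ) := by
  ext i j
  rw [Matrix.mul_apply, Finset.sum_eq_single i1]
  · rw [Matrix.smul_apply, Matrix.single_apply, Matrix.single_apply, smul_eq_mul]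
    simp only [Mon, Matrix.of_apply]
    by_cases h : i0 = i
    · subst h
      by_cases h2 : i1 = j
      · subst h2
        simp [hκ1]
      · have h3 : κ i1 ≠ j := by
          rw [hκ1]
          exact h2
        simp [h2, h3]
    · simp [h]
  · intro k _ hk
    rw [Matrix.single_apply, if_neg (fun h => hk h.2.symm), zero_mul]
  · intro h
    exact absurd (Finset.mem_univ _) h

private theorem JBK_single_sq (i0 i1 : Fin n) (h01 : i0 ≠ i1) :
    Matrix.single i0 i1 (1 : ℂ) * Matrix.single i0 i1 (1 : ℂ) = 0 := by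
  ext i j
  rw [Matrix.mul_apply]
  apply Finset.sum_eq_zero
  intro k _
  rw [Matrix.single_apply, Matrix.single_apply]
  by_cases h : i1 = k
  · subst h
    rw [if_neg (c := i0 = i1 ∧ i1 = j) (fun h => h01 h.1), mul_zero]
  · rw [if_neg (fun h2 => h h2.2), zero_mul]

private theorem JBK_diag_single (w : Fin n → ℂ) (i0 i1 : Fin n) :
    diagonal w * Matrix.single i0 i1 (1 : ℂ) = w i0 • Matrix.single i0 i1 (1 : ℂ) := by
  ext i j
  rw [Matrix.diagonal_mul, Matrix.smul_apply, Matrix.single_apply, smul_eq_mul]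
  by_cases h : i0 = i
  · rw [h]
  · simp [h]

private theorem JBK_single_diag (w : Fin n → ℂ) (i0 i1 : Fin n) :
    Matrix.single i0 i1 (1 : ℂ) * diagonal w = w i1 • Matrix.single i0 i1 (1 : ℂ) := by
  ext i j
  rw [Matrix.mul_diagonal, Matrix.smul_apply, Matrix.single_apply, smul_eq_mul]
  by_cases h : i1 = j
  · rw [h, mul_comm]
  · simp [h]

private theorem JBK_mon_diag (κ : Fin n → Fin n) (w r : Fin n → ℂ) :
    Mon κ w * diagonal r = Mon κ (fun i => w i * r (κ i)) := by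
  ext i j
  rw [Matrix.mul_diagonal]
  simp only [Mon, Matrix.of_apply]
  by_cases h : κ i = j
  · rw [if_pos h, if_pos h, h]
  · rw [if_neg h, if_neg h, zero_mul]

private theorem JBK_s (κ : Fin n → Fin n) (i1 : Fin n) (hκ : ∀ i, κ (κ i) = i) (hκ1 : κ i1 = i1) (i : Fin n) :
    (if i = i1 then (-1 : ℂ) else 1) * (if κ i = i1 then (-1 : ℂ) else 1) = 1 := by
  have h : κ i = i1 ↔ i = i1 := by
    constructor
    · intro h3
      have h4 := congrArg κ h3
      rwa [hκ, hκ1] at h4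
    · rintro rfl
      exact hκ1
  by_cases h1 : i = i1
  · rw [if_pos h1, if_pos (h.2 h1)]
    norm_num
  · rw [if_neg h1, if_neg (fun h2 => h1 (h.1 h2))]
    norm_num

theorem tt0_sq (κ : Fin n → Fin n) (i1 : Fin n) (hκ : ∀ i, κ (κ i) = i) (hκ1 : κ i1 = i1) :
    tt0 κ i1 * tt0 κ i1 = 1 := by
  unfold tt0
  rw [Mon_mul κ hκ, ← Matrix.diagonal_one]
  congr 1
  funext i
  exact JBK_s κ i1 hκ hκ1 i

theorem tt1_sq (r : Fin n → ℂ) (κ : Fin n → Fin n) (i0 i1 : Fin n) (h01 : i0 ≠ i1)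
    (hκ : ∀ i, κ (κ i) = i) (hκ0 : κ i0 = i0) (hκ1 : κ i1 = i1) (hr01 : r i0 = r i1)
    (hrκ : ∀ i, r i * r (κ i) = 1) :
    (tt0 κ i1 * JJm r i0 i1) * (tt0 κ i1 * JJm r i0 i1) = 1 := by
  have h1 : tt0 κ i1 * JJm r i0 i1 =
      Mon κ (fun i => (if i = i1 then (-1 : ℂ) else 1) * r (κ i)) + Matrix.single i0 i1 (1 : ℂ) := by
    unfold tt0 JJm
    rw [mul_add, JBK_mon_diag, JBK_mon_single κ _ i0 i1 hκ hκ0, if_neg h01, one_smul]
  rw [h1, mul_add, add_mul, add_mul, Mon_mul κ hκ, JBK_mon_single κ _ i0 i1 hκ hκ0,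
    JBK_single_mon κ _ i0 i1 hκ1, JBK_single_sq i0 i1 h01, if_neg h01, if_pos rfl, hκ0, hκ1, hr01]
  have h2 : diagonal (fun i => (if i = i1 then (-1 : ℂ) else 1) * r (κ i) *
      ((if κ i = i1 then (-1 : ℂ) else 1) * r (κ (κ i)))) = (1 : Matrix (Fin n) (Fin n) ℂ) := by
    rw [← Matrix.diagonal_one]
    congr 1
    funext i
    have h3 := JBK_s κ i1 hκ hκ1 i
    have h4 := hrκ i
    rw [hκ]
    linear_combination (r i * r (κ i)) * h3 + h4
  rw [h2, one_mul, neg_one_mul, neg_smul]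
  abel

theorem JJm_pow (r : Fin n → ℂ) (i0 i1 : Fin n) (h01 : i0 ≠ i1) (hr01 : r i0 = r i1) (k : ℕ) :
    JJm r i0 i1 ^ (k + 1) = diagonal (fun i => r i ^ (k + 1)) +
      (((k : ℂ) + 1) * r i0 ^ k) • Matrix.single i0 i1 1 := by
  induction k with
  | zero =>
    unfold JJm
    simp
  | succ k ih =>
    rw [pow_succ, ih]
    set c : ℂ := ((k : ℂ) + 1) * r i0 ^ k with hc
    unfold JJm
    rw [mul_add, add_mul, add_mul, Matrix.diagonal_mul_diagonal, JBK_diag_single, smul_mul_assoc,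
      smul_mul_assoc, JBK_single_diag, JBK_single_sq i0 i1 h01, smul_zero, add_zero, smul_smul, add_assoc,
      ← add_smul, ← hr01, hc]
    congr 1
    congr 1
    push_cast
    ring

end Pool.Agent.INU
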