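import Mathlib

/-!
MODULE LAG. Lagrange sums. `α` injective, `r : Fin n → ℂ` arbitrary values,
`c i = ∏ k, (α i - r k) / ∏ j ≠ i, (α i - α j)`.

PROOF. Mathlib: `Lagrange.coeff_eq_sum`, `Lagrange.leadingCoeff_eq_sum` (s = univ, v = α) for the sums
`∑ i, P(α i) / ∏_{j ≠ i} (α i - α j)` = coefficient of z^(n-1) in P (deg P < n).
* simple: P = ∏_{l ≠ k} (X - C (r l)), monic of degree n-1, and
  (∏_l (α i - r l)) / (α i - r k) = P(α i).
* double: P = ∏_{l ≠ k0, k1} (X - C (r l)) of degree n-2: coefficient 0.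
* inv: let p = ∏ (X - C (r l)) = X * g + C (p 0), g = p.divX monic of degree n-1; then
  ∑ c i / α i = ∑ g(α i)/∏' + p(0) * ∑ (α i)⁻¹ /∏' = 1 + p(0) * S, and
  S = ∑ (α i)⁻¹ / ∏_{j≠i} (α i - α j) = - 1 / ∏ (- α i): e.g. apply the same identity to
  q = ∏ (X - C (α l)) instead of p (q(α i) = 0, so 0 = 1 + q(0) * S, q(0) = ∏ (- α i) ≠ 0).
  With ∏ r = - ∏ α we get p(0) = - q(0) and the sum is 1 + p(0) * (- 1/q(0)) = 2.
-/

namespace Pool.Agent.INU

open Matrix Polynomial

variable {n : ℕ}

/-- the residues -/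
noncomputable def cc (α r : Fin n → ℂ) (i : Fin n) : ℂ :=
  (∏ k, (α i - r k)) / ∏ j ∈ Finset.univ.erase i, (α i - α j)

theorem cc_ne (α r : Fin n → ℂ) (hα : Function.Injective α) (hrα : ∀ i j, r i ≠ α j)
    (i : Fin n) : cc α r i ≠ 0 := by
  unfold cc
  refine div_ne_zero ?_ ?_
  · refine Finset.prod_ne_zero_iff.mpr fun k _ => sub_ne_zero.mpr (hrα k i).symm
  · refine Finset.prod_ne_zero_iff.mpr fun j hj => sub_ne_zero.mpr ?_
    intro h
    exact (Finset.mem_erase.mp hj).1 (hα h).symm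

theorem cc_simple (α r : Fin n → ℂ) (hα : Function.Injective α) (hrα : ∀ i j, r i ≠ α j)
    (k : Fin n) : ∑ i, cc α r i / (α i - r k) = 1 := by
  classical
  have hn : 0 < n := Fin.pos k
  set P : ℂ[X] := ∏ l ∈ Finset.univ.erase k, (X - C (r l)) with hP
  have hmon : P.Monic := monic_prod_of_monic _ _ fun l _ => monic_X_sub_C _
  have hdeg : P.degree = ((n - 1 : ℕ) : WithBot ℕ) := by
    rw [hP, degree_prod]
    simp [degree_X_sub_C, Finset.card_erase_of_mem]
  have key := Lagrange.leadingCoeff_eq_sum (s := (Finset.univ : Finset (Fin n))) (v := α)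
    hα.injOn (P := P) (by
      rw [hdeg, Finset.card_univ, Fintype.card_fin]
      norm_cast
      omega)
  rw [hmon.leadingCoeff] at key
  rw [key]
  refine Finset.sum_congr rfl fun i _ => ?_
  have hne : α i - r k ≠ 0 := sub_ne_zero.mpr (hrα k i).symm
  unfold cc
  rw [div_right_comm]
  congr 1
  rw [← Finset.mul_prod_erase Finset.univ (fun l => α i - r l) (Finset.mem_univ k),
    mul_div_cancel_left₀ _ hne, hP, eval_prod]
  simp

theorem cc_double (α r : Fin n → ℂ) (hα : Function.Injective α) (hrα : ∀ i j, r i ≠ α j)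
    (k0 k1 : Fin n) (h01 : k0 ≠ k1) (hr : r k0 = r k1) :
    ∑ i, cc α r i / (α i - r k0) ^ 2 = 0 := by
  classical
  have hk1 : k1 ∈ Finset.univ.erase k0 := Finset.mem_erase.mpr ⟨h01.symm, Finset.mem_univ _⟩
  set P : ℂ[X] := ∏ l ∈ (Finset.univ.erase k0).erase k1, (X - C (r l)) with hP
  have hcard : 2 ≤ n := by
    have : 1 < Fintype.card (Fin n) := Fintype.one_lt_card_iff.mpr ⟨k0, k1, h01⟩
    rw [Fintype.card_fin] at this
    exact this
  have hdeg : P.degree = ((n - 2 : ℕ) : WithBot ℕ) := by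
    rw [hP, degree_prod]
    simp only [degree_X_sub_C, Finset.sum_const, Finset.card_erase_of_mem hk1,
      Finset.card_erase_of_mem (Finset.mem_univ k0), Finset.card_univ, Fintype.card_fin,
      nsmul_eq_mul, mul_one]
    congr 1
  have key := Lagrange.coeff_eq_sum (s := (Finset.univ : Finset (Fin n))) (v := α)
    hα.injOn (P := P) (by
      rw [hdeg, Finset.card_univ, Fintype.card_fin]
      norm_cast
      omega)
  have h0 : P.coeff ((Finset.univ : Finset (Fin n)).card - 1) = 0 := by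
    apply coeff_eq_zero_of_degree_lt
    rw [hdeg, Finset.card_univ, Fintype.card_fin]
    norm_cast
    omega
  rw [h0] at key
  rw [key]
  refine Finset.sum_congr rfl fun i _ => ?_
  have hne : α i - r k0 ≠ 0 := sub_ne_zero.mpr (hrα k0 i).symm
  unfold cc
  rw [div_right_comm]
  congr 1
  rw [← Finset.mul_prod_erase Finset.univ (fun l => α i - r l) (Finset.mem_univ k0),
    ← Finset.mul_prod_erase (Finset.univ.erase k0) (fun l => α i - r l) hk1, ← hr, ← mul_assoc,
    ← sq, mul_div_cancel_left₀ _ (pow_ne_zero 2 hne), hP, eval_prod]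
  simp

/-- the identity with the constant term, for an arbitrary monic product -/
private theorem lag_aux (α s : Fin n → ℂ) (hα : Function.Injective α) (hα0 : ∀ i, α i ≠ 0)
    (hn : 1 ≤ n) :
    ∑ i, cc α s i / α i = 1 + (∏ k, (- s k)) *
      ∑ i, (α i)⁻¹ / ∏ j ∈ Finset.univ.erase i, (α i - α j) := by
  classical
  set p : ℂ[X] := ∏ l : Fin n, (X - C (s l)) with hp
  have hmon : p.Monic := monic_prod_of_monic _ _ fun l _ => monic_X_sub_C _
  have hdeg : p.natDegree = n := by
    rw [hp, natDegree_prod_of_monic _ _ fun l _ => monic_X_sub_C _]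
    simp
  have hp0 : p.coeff 0 = ∏ k, (- s k) := by
    rw [coeff_zero_eq_eval_zero, hp, eval_prod]
    simp
  have hdiv := divX_mul_X_add p
  have hgn : p.divX.natDegree = n - 1 := by
    rw [natDegree_divX_eq_natDegree_tsub_one, hdeg]
  have hgc : p.divX.coeff (n - 1) = 1 := by
    rw [coeff_divX]
    have : n - 1 + 1 = p.natDegree := by omega
    rw [this]
    exact hmon
  have hg0 : p.divX ≠ 0 := by
    intro h
    rw [h] at hgc
    simp at hgc
  have key := Lagrange.coeff_eq_sum (s := (Finset.univ : Finset (Fin n))) (v := α)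
    hα.injOn (P := p.divX) (by
      rw [degree_eq_natDegree hg0, hgn, Finset.card_univ, Fintype.card_fin]
      norm_cast
      omega)
  rw [Finset.card_univ, Fintype.card_fin, hgc] at key
  rw [key, Finset.mul_sum, ← Finset.sum_add_distrib]
  refine Finset.sum_congr rfl fun i _ => ?_
  have he : ∏ k, (α i - s k) = p.divX.eval (α i) * α i + ∏ k, (- s k) := by
    have := congrArg (eval (α i)) hdiv
    rw [eval_add, eval_mul, eval_X, eval_C, hp0] at this
    rw [this, hp, eval_prod]
    simp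
  unfold cc
  rw [he]
  have h0 := hα0 i
  rw [div_right_comm, add_div, mul_div_cancel_right₀ _ h0, add_div]
  congr 1
  rw [div_eq_mul_inv (∏ k, (- s k)), mul_div_assoc]

theorem cc_inv (α r : Fin n → ℂ) (hα : Function.Injective α) (hα0 : ∀ i, α i ≠ 0)
    (hn : 1 ≤ n) (hprod : ∏ i, r i = - ∏ i, α i) : ∑ i, cc α r i / α i = 2 := by
  have h1 := lag_aux α r hα hα0 hn
  have h2 := lag_aux α α hα hα0 hn
  have hz : ∑ i, cc α α i / α i = 0 := by
    refine Finset.sum_eq_zero fun i _ => ?_
    have : ∏ k, (α i - α k) = 0 := Finset.prod_eq_zero (Finset.mem_univ i) (sub_self _)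
    unfold cc
    rw [this]
    simp
  have hneg : ∏ k, (- r k) = - ∏ k, (- α k) := by
    rw [Finset.prod_neg, Finset.prod_neg, hprod]
    ring
  rw [hz] at h2
  rw [h1, hneg]
  linear_combination h2

end Pool.Agent.INU
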