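import Pool.Agent.INU.Defs

/-!
MODULE LFT. Four linear involutions `T k` (some of which may be `1`); some word `w` in the `T k`
is a transvection `1 + b φ`; `b` generates under the `T k` and `φ` cogenerates. Then every formal
map with linear part `T 0 * T 1 * T 2 * T 3` is a product of four involutions, and of three
if `T 3 = 1`.
-/

namespace Pool.Agent.INU

open Matrix Pool.Agent.RevMaps

variable {n : ℕ}

/-- `lift_four` with control of the linear parts -/
private theorem LFT_lift (T : Fin 4 → Matrix (Fin n) (Fin n) ℂ)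
    (hT : ∀ k, T k * T k = 1) (hs : ∀ d, 2 ≤ d → Solv T d) (f : FMap n)
    (hf : lin f = T 0 * T 1 * T 2 * T 3) :
    ∃ τ : Fin 4 → FMap n, (∀ k, τ k * τ k = 1) ∧ (∀ k, lin (τ k) = T k) ∧
      τ 0 * τ 1 * τ 2 * τ 3 = f := by
  classical
  -- the sequence of approximations
  let P : ℕ → (Fin 4 → FMap n) → Prop := fun d τ =>
    (∀ k, τ k * τ k = 1) ∧ (∀ k, lin (τ k) = T k) ∧ EqM d (τ 0 * τ 1 * τ 2 * τ 3) f
  have h0 : P 2 (fun k => linMap (T k)) := by
    refine ⟨fun k => by rw [← linMap_mul, hT, linMap_one], fun k => lin_linMap _, ?_⟩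
    rw [← linMap_mul, ← linMap_mul, ← linMap_mul, ← hf]
    exact fun i => (sub_lin_O f i).symm_sub
  have hstep : ∀ d, 2 ≤ d → ∀ τ, P d τ → ∃ τ', P (d + 1) τ' ∧ ∀ k, EqM d (τ' k) (τ k) := by
    intro d hd τ hτ
    obtain ⟨τ', h1, h2, h3, h4⟩ := lift_step hd T hT (hs d hd) f τ hτ.1 hτ.2.1 hτ.2.2
    exact ⟨τ', ⟨h1, h2, h3⟩, h4⟩
  choose! F hF1 hF2 using hstep
  let s : ℕ → (Fin 4 → FMap n) := fun d => Nat.rec (fun k => linMap (T k))
    (fun k g => F (k + 2) g) d
  have hs1 : ∀ k, P (k + 2) (s k) := by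
    intro k
    induction k with
    | zero => exact h0
    | succ k ih => exact hF1 (k + 2) (by omega) (s k) ih
  have hs2 : ∀ j d, 2 ≤ d → EqM d (s (d + 1 - 2) j) (s (d - 2) j) := by
    intro j d hd
    obtain ⟨k, rfl⟩ : ∃ k, d = k + 2 := ⟨d - 2, by omega⟩
    have e1 : k + 2 + 1 - 2 = k + 1 := by omega
    have e2 : k + 2 - 2 = k := by omega
    rw [e1, e2]
    exact hF2 (k + 2) (by omega) (s k) (hs1 k) j
  have hlim := fun j => exists_limit (fun d => s (d - 2) j) 2 (hs2 j)
  choose τ hτ using hlim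
  have hP : ∀ d, 2 ≤ d → P d (s (d - 2)) := by
    intro d hd
    have := hs1 (d - 2)
    have e : d - 2 + 2 = d := by omega
    rwa [e] at this
  refine ⟨τ, fun k => ?_, fun k => ?_, ?_⟩
  · apply eq_of_EqM
    intro d
    have h1 := ((hτ k (max d 2) (le_max_right _ _)).mul (hτ k (max d 2) (le_max_right _ _)))
    have h2 := (hP (max d 2) (le_max_right _ _)).1 k
    simp only [h2] at h1
    exact h1.mono (le_max_left _ _)
  · rw [(hτ k 2 le_rfl).lin_eq le_rfl]
    exact (hP 2 le_rfl).2.1 k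
  · apply eq_of_EqM
    intro d
    have h1 := (((hτ 0 (max d 2) (le_max_right _ _)).mul (hτ 1 (max d 2) (le_max_right _ _))).mul
      (hτ 2 (max d 2) (le_max_right _ _))).mul (hτ 3 (max d 2) (le_max_right _ _))
    have h2 := (hP (max d 2) (le_max_right _ _)).2.2
    exact (h1.trans h2).mono (le_max_left _ _)

private theorem LFT_word_inv (T : Fin 4 → Matrix (Fin n) (Fin n) ℂ) (hT : ∀ k, T k * T k = 1)
    (w : List (Fin 4)) : (w.map T).prod * (w.reverse.map T).prod = 1 := by
  induction w with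
  | nil => simp
  | cons k w ih =>
    rw [List.map_cons, List.prod_cons, List.reverse_cons, List.map_append, List.prod_append,
      List.map_singleton, List.prod_singleton]
    calc T k * (w.map T).prod * ((w.reverse.map T).prod * T k)
        = T k * ((w.map T).prod * (w.reverse.map T).prod) * T k := by simp only [mul_assoc]
      _ = 1 := by rw [ih, mul_one, hT]

private theorem LFT_good (T : Fin 4 → Matrix (Fin n) (Fin n) ℂ) (hT : ∀ k, T k * T k = 1)
    (d : ℕ) (w : List (Fin 4)) : Good (ZZ T d) d (w.map T).prod (w.reverse.map T).prod := by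
  induction w with
  | nil => simpa using Good.one (ZZ T d) d
  | cons k w ih =>
    rw [List.map_cons, List.prod_cons, List.reverse_cons, List.map_append, List.prod_append,
      List.map_singleton, List.prod_singleton]
    exact (good_T T hT d k).mul ih

private theorem LFT_solv (T : Fin 4 → Matrix (Fin n) (Fin n) ℂ) (hT : ∀ k, T k * T k = 1)
    (i0 i1 : Fin n) (h01 : i0 ≠ i1) (w : List (Fin 4))
    (hE : (w.map T).prod = 1 + Matrix.single i0 i1 1)
    (hgen : Gen T (Pi.single i0 1)) (hco : CoGen T (Pi.single i1 1)) (d : ℕ) (hd : 2 ≤ d) :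
    Solv T d := by
  intro r hr
  have hg := good_T T hT d
  have hE' : (w.reverse.map T).prod = EE' i0 i1 := by
    have h1 : EE' i0 i1 * (w.map T).prod = 1 := by
      rw [hE, EE', sub_mul, one_mul, mul_add, mul_one,
        Matrix.single_mul_single_of_ne _ _ _ _ h01.symm]
      abel
    calc (w.reverse.map T).prod = (EE' i0 i1 * (w.map T).prod) * (w.reverse.map T).prod := by
          rw [h1, one_mul]
      _ = EE' i0 i1 := by rw [mul_assoc, LFT_word_inv T hT, mul_one]
  have hEG : Good (ZZ T d) d (EE i0 i1) (EE' i0 i1) := by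
    have := LFT_good T hT d w
    rw [hE, hE'] at this
    exact this
  have hZ : ∀ a : V n, OV (d + 1) a → a ∈ ZZ T d := by
    intro a ha
    refine ⟨0, fun k i => O_of_zero _, ?_⟩
    rw [map_zero, sub_zero]; exact ha
  obtain ⟨a, ha, h⟩ := hlemma hEG h01 hZ hd hg hgen hco r hr
  exact ⟨a, ha, h⟩

private theorem LFT_map_conj (T : Fin 4 → Matrix (Fin n) (Fin n) ℂ)
    (P P' : Matrix (Fin n) (Fin n) ℂ) (h1 : P * P' = 1) (h2 : P' * P = 1) (w : List (Fin 4)) :
    (w.map (fun k => P' * T k * P)).prod = P' * (w.map T).prod * P := by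
  induction w with
  | nil => simp [h2]
  | cons k w ih =>
    rw [List.map_cons, List.prod_cons, ih, List.map_cons, List.prod_cons]
    calc P' * T k * P * (P' * (w.map T).prod * P)
        = P' * T k * (P * P') * (w.map T).prod * P := by simp only [mul_assoc]
      _ = _ := by rw [h1, mul_one]; simp only [mul_assoc]

private theorem LFT_main (T : Fin 4 → Matrix (Fin n) (Fin n) ℂ) (hT : ∀ k, T k * T k = 1)
    (b φ : Fin n → ℂ) (hb : b ≠ 0) (hφ : φ ≠ 0) (hφb : φ ⬝ᵥ b = 0) (w : List (Fin 4))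
    (hw : (w.map T).prod = 1 + vecMulVec b φ) (hgen : Gen T b) (hcogen : CoGen T φ)
    (f : FMap n) (hf : lin f = T 0 * T 1 * T 2 * T 3) :
    ∃ τ : Fin 4 → FMap n, (∀ k, τ k * τ k = 1) ∧ (∀ k, T k = 1 → τ k = 1) ∧
      τ 0 * τ 1 * τ 2 * τ 3 = f := by
  obtain ⟨P, i0, i1, hP, hi01, hPb, hφP⟩ := exists_basechange b φ hb hφ hφb
  have hPu : IsUnit P.det := isUnit_iff_ne_zero.mpr hP
  have hPP : P * P⁻¹ = 1 := Matrix.mul_nonsing_inv P hPu
  have hPP' : P⁻¹ * P = 1 := Matrix.nonsing_inv_mul P hPu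
  have hconjP : ∀ X Y : Matrix (Fin n) (Fin n) ℂ,
      (P⁻¹ * X * P) * (P⁻¹ * Y * P) = P⁻¹ * (X * Y) * P := by
    intro X Y
    calc (P⁻¹ * X * P) * (P⁻¹ * Y * P) = P⁻¹ * X * (P * P⁻¹) * Y * P := by
          simp only [mul_assoc]
      _ = _ := by rw [hPP, mul_one]; simp only [mul_assoc]
  set T' : Fin 4 → Matrix (Fin n) (Fin n) ℂ := fun k => P⁻¹ * T k * P with hT'
  have hT'2 : ∀ k, T' k * T' k = 1 := by
    intro k
    rw [hT']
    simp only
    rw [hconjP, hT k, mul_one, hPP']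
  have h1 : P⁻¹ *ᵥ b = Pi.single i0 1 := by
    rw [← hPb, Matrix.mulVec_mulVec, hPP', Matrix.one_mulVec]
  have hw' : (w.map T').prod = 1 + Matrix.single i0 i1 1 := by
    rw [hT', LFT_map_conj T P P⁻¹ hPP hPP', hw, mul_add, mul_one, add_mul, hPP',
      Matrix.mul_vecMulVec, Matrix.vecMulVec_mul, hφP, h1]
    congr 1
    ext i j
    simp only [vecMulVec_apply, Matrix.single_apply, Pi.single_apply]
    by_cases h1 : i = i0
    · subst h1
      by_cases h2 : j = i1
      · subst h2; simp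
      · simp [h2, Ne.symm h2]
    · simp [h1, Ne.symm h1]
  have hgen' : Gen T' (Pi.single i0 1) := by
    intro W hW hWT
    have h2 := hgen (W.comap (Matrix.mulVecLin P⁻¹)) (by
      rw [Submodule.mem_comap, Matrix.mulVecLin_apply, h1]; exact hW) (by
      intro i w hw
      rw [Submodule.mem_comap, Matrix.mulVecLin_apply] at hw ⊢
      have h3 := hWT i _ hw
      rw [Matrix.mulVec_mulVec] at h3 ⊢
      rw [hT'] at h3
      simp only at h3
      rwa [mul_assoc (P⁻¹ * T i), hPP, mul_one] at h3)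
    rw [eq_top_iff]
    intro w _
    have h3 : P *ᵥ w ∈ W.comap (Matrix.mulVecLin P⁻¹) := by rw [h2]; trivial
    rw [Submodule.mem_comap, Matrix.mulVecLin_apply, Matrix.mulVec_mulVec, hPP',
      Matrix.one_mulVec] at h3
    exact h3
  have hco' : CoGen T' (Pi.single i1 1) := by
    intro W hW hWT
    have h2 := hcogen (W.comap (Matrix.vecMulLinear P)) (by
      rw [Submodule.mem_comap, Matrix.vecMulLinear_apply, hφP]; exact hW) (by
      intro i w hw
      rw [Submodule.mem_comap, Matrix.vecMulLinear_apply] at hw ⊢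
      have h3 := hWT i _ hw
      rw [Matrix.vecMul_vecMul] at h3 ⊢
      rw [hT'] at h3
      simp only at h3
      rwa [← mul_assoc, ← mul_assoc, hPP, one_mul] at h3)
    rw [eq_top_iff]
    intro w _
    have h3 : w ᵥ* P⁻¹ ∈ W.comap (Matrix.vecMulLinear P) := by rw [h2]; trivial
    rw [Submodule.mem_comap, Matrix.vecMulLinear_apply, Matrix.vecMul_vecMul, hPP',
      Matrix.vecMul_one] at h3
    exact h3
  have q1 : linMap P * linMap P⁻¹ = 1 := by rw [← linMap_mul, hPP, linMap_one]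
  have q2 : linMap P⁻¹ * linMap P = 1 := by rw [← linMap_mul, hPP', linMap_one]
  have hlin : lin (linMap P⁻¹ * f * linMap P) = T' 0 * T' 1 * T' 2 * T' 3 := by
    rw [lin_mul, lin_mul, lin_linMap, lin_linMap, hf]
    simp only [hT']
    rw [hconjP, hconjP, hconjP]
  obtain ⟨τ, hτ, hτl, hprod⟩ := LFT_lift T' hT'2
    (fun d hd => LFT_solv T' hT'2 i0 i1 hi01 w hw' hgen' hco' d hd) _ hlin
  refine ⟨fun k => linMap P * τ k * linMap P⁻¹, fun k => ?_, fun k hk => ?_, ?_⟩
  · calc (linMap P * τ k * linMap P⁻¹) * (linMap P * τ k * linMap P⁻¹)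
        = linMap P * (τ k * (linMap P⁻¹ * linMap P) * τ k) * linMap P⁻¹ := by
          simp only [mul_assoc]
      _ = 1 := by rw [q2, mul_one, hτ, mul_one, q1]
  · have h2 : lin (τ k) = 1 := by
      rw [hτl k, hT']
      simp only
      rw [hk, mul_one, hPP']
    simp only
    rw [invol_eq_one (τ k) (hτ k) h2, mul_one, q1]
  · have hm : ∀ x y : FMap n, (linMap P * x * linMap P⁻¹) * (linMap P * y * linMap P⁻¹) =
        linMap P * (x * y) * linMap P⁻¹ := by
      intro x y
      calc (linMap P * x * linMap P⁻¹) * (linMap P * y * linMap P⁻¹)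
          = linMap P * (x * (linMap P⁻¹ * linMap P) * y) * linMap P⁻¹ := by
            simp only [mul_assoc]
        _ = _ := by rw [q2, mul_one]
    simp only
    rw [hm, hm, hm, hprod]
    calc linMap P * (linMap P⁻¹ * f * linMap P) * linMap P⁻¹
        = (linMap P * linMap P⁻¹) * f * (linMap P * linMap P⁻¹) := by simp only [mul_assoc]
      _ = f := by rw [q1, one_mul, mul_one]

theorem LP_four (T : Fin 4 → Matrix (Fin n) (Fin n) ℂ) (hT : ∀ k, T k * T k = 1)
    (b φ : Fin n → ℂ) (hb : b ≠ 0) (hφ : φ ≠ 0) (hφb : φ ⬝ᵥ b = 0) (w : List (Fin 4))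
    (hw : (w.map T).prod = 1 + vecMulVec b φ) (hgen : Gen T b) (hco : CoGen T φ) :
    LP 4 (T 0 * T 1 * T 2 * T 3) := by
  intro f hf
  obtain ⟨τ, hτ, _, hp⟩ := LFT_main T hT b φ hb hφ hφb w hw hgen hco f hf
  have h1 := (((PP.one (hτ 0)).mul (PP.one (hτ 1))).mul (PP.one (hτ 2))).mul (PP.one (hτ 3))
  rwa [hp] at h1

theorem LP_three (T : Fin 4 → Matrix (Fin n) (Fin n) ℂ) (hT : ∀ k, T k * T k = 1)
    (h3 : T 3 = 1)
    (b φ : Fin n → ℂ) (hb : b ≠ 0) (hφ : φ ≠ 0) (hφb : φ ⬝ᵥ b = 0) (w : List (Fin 4))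
    (hw : (w.map T).prod = 1 + vecMulVec b φ) (hgen : Gen T b) (hco : CoGen T φ) :
    LP 3 (T 0 * T 1 * T 2) := by
  intro f hf
  obtain ⟨τ, hτ, hτ1, hp⟩ := LFT_main T hT b φ hb hφ hφb w hw hgen hco f
    (by rw [hf, h3, mul_one])
  rw [hτ1 3 h3, mul_one] at hp
  have h1 := ((PP.one (hτ 0)).mul (PP.one (hτ 1))).mul (PP.one (hτ 2))
  rwa [hp] at h1

end Pool.Agent.INU
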