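import Mathlib

/-!
MODULE NSP. A nonzero finite dimensional space with a nilpotent endomorphism `x` splits off a cyclic
subspace.

PROOF. k = nilpotency index (nilpotencyClass x): x^k = 0, x^(k-1) ≠ 0, k >= 1. v with x^(k-1) v ≠ 0, a linear form φ with
φ (x^(k-1) v) ≠ 0 (Module.exists_dual_forall_apply_ne... / exists_dual_map_eq... / use Module.Dual separation:
`Module.forall_dual_apply_eq_zero_iff`). U = span of x^j v, j < k, U' = {w | ∀ j < k, φ (x^j w) = 0} (invariant under x: for j = k-1
use x^k = 0). Disjoint and independent: if w = ∑ c j • x^j v with w ∈ U' and c ≠ 0, let l be the least index with c l ≠ 0: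
φ (x^(k-1-l) w) = c l * φ (x^(k-1) v) ≠ 0, contradiction; the same computation gives the linear independence. Codisjoint: dim U = k,
dim U' ≥ dim V - k since U' is the kernel of the map V → (Fin k → ℂ), w ↦ (φ (x^j w))_j
(LinearMap.finrank_range_add_finrank_ker). Basis of U: Basis.span of the independent family.
-/

namespace Pool.Agent.INU

theorem nil_split {V : Type} [AddCommGroup V] [Module ℂ V] [FiniteDimensional ℂ V]
    (x : Module.End ℂ V) (hx : IsNilpotent x) (hV : 0 < Module.finrank ℂ V) :
    ∃ (k : ℕ) (v : V) (U' : Submodule ℂ V), 0 < k ∧ (x ^ k) v = 0 ∧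
      LinearIndependent ℂ (fun j : Fin k => (x ^ (j : ℕ)) v) ∧ (∀ w ∈ U', x w ∈ U') ∧
      IsCompl (Submodule.span ℂ (Set.range (fun j : Fin k => (x ^ (j : ℕ)) v))) U' := by
  classical
  haveI : Nontrivial V := Module.finrank_pos_iff.mp hV
  obtain ⟨k, hk⟩ : ∃ k, k = nilpotencyClass x := ⟨_, rfl⟩
  have hxk : x ^ k = 0 := by rw [hk]; exact pow_nilpotencyClass hx
  have hk0 : 0 < k := by rw [hk]; exact pos_nilpotencyClass_iff.mpr hx
  have hxk1 : x ^ (k - 1) ≠ 0 := by rw [hk]; exact pow_pred_nilpotencyClass hx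
  have hzero : ∀ m, k ≤ m → x ^ m = 0 := fun m hm => pow_eq_zero_of_le hm hxk
  obtain ⟨v, hv⟩ : ∃ v, (x ^ (k - 1)) v ≠ 0 := by
    by_contra h
    push Not at h
    exact hxk1 (LinearMap.ext h)
  obtain ⟨φ, hφ⟩ : ∃ φ : Module.Dual ℂ V, φ ((x ^ (k - 1)) v) ≠ 0 := by
    by_contra h
    push Not at h
    exact hv ((Module.forall_dual_apply_eq_zero_iff ℂ _).mp h)
  let L : V →ₗ[ℂ] (Fin k → ℂ) := LinearMap.pi (fun j => φ ∘ₗ (x ^ (j : ℕ)))
  have hL : ∀ w (j : Fin k), L w j = φ ((x ^ (j : ℕ)) w) := fun w j => rfl
  have key : ∀ c : Fin k → ℂ, L (∑ j, c j • (x ^ (j : ℕ)) v) = 0 → c = 0 := by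
    intro c hc
    have hind : ∀ l (h : l < k), c ⟨l, h⟩ = 0 := by
      intro l
      induction l using Nat.strong_induction_on with
      | _ l ih =>
        intro h
        have h1 := congrFun hc ⟨k - 1 - l, by omega⟩
        rw [hL, map_sum, map_sum] at h1
        rw [Finset.sum_eq_single (⟨l, h⟩ : Fin k)] at h1
        · simp only [map_smul, smul_eq_mul] at h1
          rw [← Module.End.mul_apply, ← pow_add, show k - 1 - l + l = k - 1 by omega] at h1
          rcases mul_eq_zero.mp h1 with h2 | h2
          · exact h2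
          · exact absurd h2 hφ
        · intro b _ hb
          simp only [map_smul, smul_eq_mul]
          rcases lt_or_gt_of_ne (fun hh : (b : ℕ) = l => hb (Fin.ext hh)) with hlt | hgt
          · have := ih b hlt b.2
            rw [show c b = 0 from this, zero_mul]
          · rw [← Module.End.mul_apply, ← pow_add, hzero _ (by omega)]
            simp
        · intro hh
          exact absurd (Finset.mem_univ _) hh
    funext j
    exact hind j j.2
  have hli : LinearIndependent ℂ (fun j : Fin k => (x ^ (j : ℕ)) v) := by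
    rw [Fintype.linearIndependent_iff]
    intro c hc j
    have := key c (by rw [hc, map_zero])
    rw [this]; rfl
  refine ⟨k, v, LinearMap.ker L, hk0, by rw [hxk]; rfl, hli, ?_, ?_⟩
  · intro w hw
    rw [LinearMap.mem_ker] at hw ⊢
    funext j
    rw [hL, ← Module.End.mul_apply, ← pow_succ]
    by_cases hj : (j : ℕ) + 1 < k
    · have := congrFun hw ⟨j + 1, hj⟩
      rw [hL] at this
      exact this
    · rw [hzero _ (by omega)]
      simp
  · have hdisj : Disjoint (Submodule.span ℂ (Set.range (fun j : Fin k => (x ^ (j : ℕ)) v)))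
        (LinearMap.ker L) := by
      rw [Submodule.disjoint_def]
      intro w hw hw'
      obtain ⟨c, rfl⟩ := (Submodule.mem_span_range_iff_exists_fun ℂ).mp hw
      have := key c (LinearMap.mem_ker.mp hw')
      rw [this]
      simp
    refine ⟨hdisj, ?_⟩
    have h1 : Module.finrank ℂ (Submodule.span ℂ (Set.range (fun j : Fin k => (x ^ (j : ℕ)) v)))
        = k := by
      rw [finrank_span_eq_card hli, Fintype.card_fin]
    have h2 := LinearMap.finrank_range_add_finrank_ker L
    have h3 : Module.finrank ℂ (LinearMap.range L) ≤ k := by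
      refine (Submodule.finrank_le _).trans ?_
      simp
    rw [codisjoint_iff]
    apply Submodule.eq_top_of_finrank_eq
    have h4 := Submodule.finrank_sup_add_finrank_inf_eq
      (Submodule.span ℂ (Set.range (fun j : Fin k => (x ^ (j : ℕ)) v))) (LinearMap.ker L)
    rw [disjoint_iff.mp hdisj, finrank_bot, h1] at h4
    have h5 := Submodule.finrank_le
      (Submodule.span ℂ (Set.range (fun j : Fin k => (x ^ (j : ℕ)) v)) ⊔ LinearMap.ker L)
    omega

end Pool.Agent.INU
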