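import Mathlib

/-!
MODULE WMT. The matrix with columns `α i / (α i - r j)` (`j ≠ i1`) and
`α i / (α i - r i1) ^ 2` (`j = i1`), where `r i0 = r i1` and `r` is injective apart from this, is
invertible.

PROOF (copy the style of `Vmat_mulVec_eq_zero` in Pool/Agent/RevMaps/Cauchy.lean). It is enough that
Wmat *ᵥ a = 0 implies a = 0 (Matrix.exists_mulVec_eq_zero_iff). Divide by α i ≠ 0. The polynomial
P = ∑_{j ≠ i1} a j * ∏_{k ≠ j} (X - C (r k)) + a i1 * ∏_{k ≠ i0, i1} (X - C (r k)) has degree < n and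
P(α i) = (∏_k (α i - r k)) * ∑_j a j * W i j = 0 for all i, so P = 0
(Polynomial.eq_zero_of_natDegree_lt_card_of_eval_eq_zero). Evaluate at r j, j ≠ i0, i1:
a j * ∏_{k ≠ j} (r j - r k) = 0, so a j = 0. Evaluate at r i0: a i1 * ∏_{k ≠ i0, i1} (r i0 - r k) = 0, so
a i1 = 0. Then P = a i0 * ∏_{k ≠ i0} (X - C (r k)) = 0, a i0 = 0.
-/

namespace Pool.Agent.INU

open Matrix Polynomial

variable {n : ℕ}

/-- matrix of generalised eigenvectors -/
noncomputable def Wmat (α r : Fin n → ℂ) (i1 : Fin n) : Matrix (Fin n) (Fin n) ℂ :=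
  Matrix.of fun i j => if j = i1 then α i / (α i - r i1) ^ 2 else α i / (α i - r j)

private theorem natDegree_prod_le (S : Finset (Fin n)) (r : Fin n → ℂ) :
    (∏ k ∈ S, (X - C (r k)) : ℂ[X]).natDegree ≤ S.card := by
  refine (Polynomial.natDegree_prod_le S _).trans ?_
  simp

theorem Wmat_det_ne_zero (α r : Fin n → ℂ) (i0 i1 : Fin n) (h01 : i0 ≠ i1)
    (hα : Function.Injective α) (hα0 : ∀ i, α i ≠ 0) (hr01 : r i0 = r i1)
    (hr : ∀ i j, i ≠ i1 → j ≠ i1 → r i = r j → i = j) (hrα : ∀ i j, r i ≠ α j) :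
    (Wmat α r i1).det ≠ 0 := by
  classical
  intro hdet
  obtain ⟨a, ha0, ha⟩ := Matrix.exists_mulVec_eq_zero_iff.mpr hdet
  apply ha0
  obtain ⟨P, hP⟩ : ∃ P : ℂ[X], P =
      (∑ j ∈ Finset.univ.erase i1, C (a j) * ∏ k ∈ Finset.univ.erase j, (X - C (r k))) +
        C (a i1) * ∏ k ∈ (Finset.univ.erase i1).erase i0, (X - C (r k)) := ⟨_, rfl⟩
  have hi0 : i0 ∈ (Finset.univ : Finset (Fin n)).erase i1 :=
    Finset.mem_erase.mpr ⟨h01, Finset.mem_univ _⟩
  have hev : ∀ x, P.eval x = (∑ j ∈ Finset.univ.erase i1,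
      a j * ∏ k ∈ Finset.univ.erase j, (x - r k)) +
        a i1 * ∏ k ∈ (Finset.univ.erase i1).erase i0, (x - r k) := by
    intro x
    rw [hP, eval_add, eval_finsetSum, eval_mul, eval_C, eval_prod]
    simp only [eval_mul, eval_C, eval_prod, eval_sub, eval_X]
  have hPα : ∀ i, P.eval (α i) = 0 := by
    intro i
    have h1 := congrFun ha i
    simp only [mulVec, dotProduct, Wmat, Matrix.of_apply, Pi.zero_apply] at h1
    rw [← Finset.add_sum_erase _ _ (Finset.mem_univ i1), if_pos rfl] at h1
    have hne : ∀ k, α i - r k ≠ 0 := fun k h => hrα k i (sub_eq_zero.mp h).symm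
    have h2 : α i * P.eval (α i) = (∏ k, (α i - r k)) *
        (α i / (α i - r i1) ^ 2 * a i1 + ∑ j ∈ Finset.univ.erase i1,
          (if j = i1 then α i / (α i - r i1) ^ 2 else α i / (α i - r j)) * a j) := by
      rw [hev, mul_add, mul_add, add_comm, Finset.mul_sum, Finset.mul_sum]
      congr 1
      · rw [← Finset.mul_prod_erase _ _ (Finset.mem_univ i1), ← Finset.mul_prod_erase _ _ hi0, hr01]
        have := hne i1
        field_simp
      · apply Finset.sum_congr rfl
        intro j hj
        rw [if_neg (Finset.mem_erase.mp hj).1,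
          ← Finset.mul_prod_erase _ _ (Finset.mem_univ j)]
        have := hne j
        field_simp
    rw [h1, mul_zero] at h2
    exact (mul_eq_zero.mp h2).resolve_left (hα0 i)
  have hnpos : 0 < n := i0.pos
  have hP0 : P = 0 := by
    apply Polynomial.eq_zero_of_natDegree_lt_card_of_eval_eq_zero P hα hPα
    have : P.natDegree ≤ n - 1 := by
      rw [hP]
      refine natDegree_add_le_of_degree_le ?_ ?_
      · refine natDegree_sum_le_of_forall_le _ _ ?_
        intro j _
        refine (natDegree_C_mul_le _ _).trans ((natDegree_prod_le _ _).trans ?_)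
        rw [Finset.card_erase_of_mem (Finset.mem_univ j), Finset.card_univ, Fintype.card_fin]
      · refine (natDegree_C_mul_le _ _).trans ((natDegree_prod_le _ _).trans ?_)
        rw [Finset.card_erase_of_mem hi0, Finset.card_erase_of_mem (Finset.mem_univ i1),
          Finset.card_univ, Fintype.card_fin]
        omega
    rw [Fintype.card_fin]
    omega
  have hev0 : ∀ x, (∑ j ∈ Finset.univ.erase i1,
      a j * ∏ k ∈ Finset.univ.erase j, (x - r k)) +
        a i1 * ∏ k ∈ (Finset.univ.erase i1).erase i0, (x - r k) = 0 := by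
    intro x
    rw [← hev, hP0, eval_zero]
  -- the double entry
  have ha1 : a i1 = 0 := by
    have h1 := hev0 (r i0)
    rw [Finset.sum_eq_zero, zero_add] at h1
    · refine (mul_eq_zero.mp h1).resolve_right ?_
      rw [← ne_eq, Finset.prod_ne_zero_iff]
      intro k hk
      have hk' := Finset.mem_erase.mp hk
      exact sub_ne_zero.mpr fun h => hk'.1 (hr i0 k h01 (Finset.mem_erase.mp hk'.2).1 h).symm
    · intro j hj
      by_cases hj0 : j = i0
      · rw [Finset.prod_eq_zero (i := i1), mul_zero]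
        · exact Finset.mem_erase.mpr ⟨by rw [hj0]; exact h01.symm, Finset.mem_univ _⟩
        · rw [hr01, sub_self]
      · rw [Finset.prod_eq_zero (i := i0), mul_zero]
        · exact Finset.mem_erase.mpr ⟨fun h => hj0 h.symm, Finset.mem_univ _⟩
        · rw [sub_self]
  have haj : ∀ j, j ≠ i0 → j ≠ i1 → a j = 0 := by
    intro j hj0 hj1
    have h1 := hev0 (r j)
    rw [ha1, zero_mul, add_zero, Finset.sum_eq_single j] at h1
    · refine (mul_eq_zero.mp h1).resolve_right ?_
      rw [← ne_eq, Finset.prod_ne_zero_iff]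
      intro k hk
      have hk' := (Finset.mem_erase.mp hk).1
      refine sub_ne_zero.mpr fun h => ?_
      by_cases hk1 : k = i1
      · rw [hk1, ← hr01] at h
        exact hj0 (hr j i0 hj1 h01 h)
      · exact hk' (hr j k hj1 hk1 h).symm
    · intro b _ hb
      rw [Finset.prod_eq_zero (i := j), mul_zero]
      · exact Finset.mem_erase.mpr ⟨hb.symm, Finset.mem_univ _⟩
      · rw [sub_self]
    · intro h
      exact absurd (Finset.mem_erase.mpr ⟨hj1, Finset.mem_univ _⟩) h
  have ha00 : a i0 = 0 := by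
    have h1 := hev0 (α i0)
    rw [ha1, zero_mul, add_zero, Finset.sum_eq_single i0] at h1
    · refine (mul_eq_zero.mp h1).resolve_right ?_
      rw [← ne_eq, Finset.prod_ne_zero_iff]
      intro k _
      exact sub_ne_zero.mpr fun h => hrα k i0 h.symm
    · intro b hb hb0
      rw [haj b hb0 (Finset.mem_erase.mp hb).1, zero_mul]
    · intro h
      exact absurd hi0 h
  funext j
  by_cases h0 : j = i0
  · rw [h0, ha00]; rfl
  · by_cases h1 : j = i1
    · rw [h1, ha1]; rfl
    · rw [haj j h0 h1]; rfl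

end Pool.Agent.INU
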