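import Pool.Agent.INU.LFT
import Pool.Agent.INU.LAG
import Pool.Agent.INU.WMT
import Pool.Agent.INU.JBK

/-!
MODULE POL. Pole placement with a double root: a diagonal matrix with distinct entries `α` such that
`∏ r = - ∏ α`, with the `r` as below, has the property that every formal map with this linear part is a
product of three involutions.

PROOF. c i = cc α r i, ρ i = c i / (2 * α i), β = (1,...,1). ρ ⬝ᵥ β = 1 (cc_inv), so
T2 = 1 - 2 • vecMulVec β ρ is an involution (`hrefl` in RevMaps/Four.lean). X = diagonal α * T2.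
V = Wmat α r i1 (invertible). X * V = V * JJm r i0 i1:
 column j ≠ i1: v_i = α i / (α i - r j), ρ ⬝ᵥ v = (1/2) ∑ c i / (α i - r j) = 1/2 (cc_simple), so T2 v = v - β and
   (X v)_i = α i * (α i / (α i - r j) - 1) = r j * v_i.
 column i1: v'_i = α i / (α i - r i1)^2, ρ ⬝ᵥ v' = (1/2) ∑ c i / (α i - r i1)^2 = 0 (cc_double), so
   (X v')_i = α i * v'_i = r i1 * v'_i + α i / (α i - r i0) (r i0 = r i1).
T0 = V * tt0 κ i1 * V⁻¹, T1 = V * (tt0 κ i1 * JJm r i0 i1) * V⁻¹: involutions, T0 * T1 = V J V⁻¹ = X = diagonal α * T2, so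
T0 * T1 * T2 = diagonal α. T = ![T0, T1, T2, 1]. m = m' + 1: (T0 * T1)^m = V * J^m * V⁻¹ = 1 + (m * r i0^m') • V E V⁻¹
(JJm_pow, r i ^ m = 1) = 1 + vecMulVec b φ, b = V *ᵥ single i0 (b i = α i / (α i - r i0) ≠ 0),
φ = (m * r i0^m') • (single i1 ᵥ* V⁻¹) ≠ 0; φ ⬝ᵥ b = 0. The word w = (List.replicate m [0, 1]).flatten.
Gen T b: T0 T1 T2 = diagonal α, `single_mem_of_stable`, `eq_top_of_single`. CoGen T φ: φ has a nonzero coordinate i, so
e_i^T ∈ W, e_i^T T2 = e_i^T - 2 • ρ, so ρ ∈ W, all coordinates of ρ are nonzero (cc_ne). See the end of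
`exists_four` in RevMaps/Four.lean. Finish with LP_three.
-/

namespace Pool.Agent.INU

open Matrix Pool.Agent.RevMaps

variable {n : ℕ}

private theorem POL_word {M : Type*} [Monoid M] (T : Fin 4 → M) (k : ℕ) :
    (((List.replicate k [(0 : Fin 4), 1]).flatten).map T).prod = (T 0 * T 1) ^ k := by
  induction k with
  | zero => simp
  | succ k ih =>
    rw [List.replicate_succ, List.flatten_cons, List.map_append, List.prod_append, ih, pow_succ']
    simp

private theorem POL_refl (β ρ : Fin n → ℂ) (hr : ρ ⬝ᵥ β = 1) :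
    (1 - (2 : ℂ) • vecMulVec β ρ) * (1 - (2 : ℂ) • vecMulVec β ρ) = 1 := by
  have : vecMulVec β ρ * vecMulVec β ρ = vecMulVec β ρ := by
    rw [Matrix.vecMulVec_mul_vecMulVec, hr, one_smul]
  simp only [sub_mul, mul_sub, one_mul, mul_one, Matrix.smul_mul, Matrix.mul_smul, this]
  module

private theorem POL_XV (α r : Fin n → ℂ) (i0 i1 : Fin n) (h01 : i0 ≠ i1)
    (hα : Function.Injective α) (hα0 : ∀ i, α i ≠ 0) (hr01 : r i0 = r i1)
    (hrα : ∀ i j, r i ≠ α j) :
    diagonal α * (1 - (2 : ℂ) • vecMulVec (fun _ => (1 : ℂ)) (fun i => cc α r i / (2 * α i))) *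
      Wmat α r i1 = Wmat α r i1 * JJm r i0 i1 := by
  have hsub : ∀ i j, α i - r j ≠ 0 := fun i j => sub_ne_zero.mpr (hrα j i).symm
  have hρ1 : ∀ j, j ≠ i1 → ((fun i => cc α r i / (2 * α i)) ᵥ* Wmat α r i1) j = 1 / 2 := by
    intro j hj
    simp only [vecMul, dotProduct, Wmat, Matrix.of_apply, if_neg hj]
    have key : ∑ i, cc α r i / (2 * α i) * (α i / (α i - r j)) =
        (1 / 2) * ∑ i, cc α r i / (α i - r j) := by
      rw [Finset.mul_sum]
      apply Finset.sum_congr rfl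
      intro i _
      have h1 := hα0 i
      have h2 := hsub i j
      field_simp
    rw [key, cc_simple α r hα hrα j, mul_one]
  have hρ2 : ((fun i => cc α r i / (2 * α i)) ᵥ* Wmat α r i1) i1 = 0 := by
    simp only [vecMul, dotProduct, Wmat, Matrix.of_apply, if_true]
    have key : ∑ i, cc α r i / (2 * α i) * (α i / (α i - r i1) ^ 2) =
        (1 / 2) * ∑ i, cc α r i / (α i - r i1) ^ 2 := by
      rw [Finset.mul_sum]
      apply Finset.sum_congr rfl
      intro i _
      have h1 := hα0 i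
      have h2 := hsub i i1
      field_simp
    rw [key, cc_double α r hα hrα i1 i0 h01.symm hr01.symm, mul_zero]
  rw [mul_assoc, sub_mul, one_mul, Matrix.smul_mul, Matrix.vecMulVec_mul, JJm, mul_add]
  ext i j
  rw [Matrix.diagonal_mul, Matrix.sub_apply, Matrix.smul_apply, vecMulVec_apply, Matrix.add_apply,
    Matrix.mul_diagonal]
  by_cases hj : j = i1
  · subst hj
    rw [hρ2, Matrix.mul_single_apply_same]
    have h2 := hsub i j
    have h3 := hα0 i
    simp only [Wmat, Matrix.of_apply, if_true, if_neg h01, hr01]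
    simp only [smul_eq_mul, mul_zero, sub_zero, mul_one]
    field_simp
    ring
  · rw [hρ1 j hj, Matrix.mul_single_apply_of_ne _ _ _ _ _ hj]
    have h2 := hsub i j
    simp only [Wmat, Matrix.of_apply, if_neg hj]
    simp only [smul_eq_mul, one_mul, add_zero]
    field_simp
    ring

theorem pole (α r : Fin n → ℂ) (i0 i1 : Fin n) (κ : Fin n → Fin n) (m : ℕ) (hm : 0 < m)
    (h01 : i0 ≠ i1) (hα : Function.Injective α) (hα0 : ∀ i, α i ≠ 0) (hr01 : r i0 = r i1)
    (hr : ∀ i j, i ≠ i1 → j ≠ i1 → r i = r j → i = j) (hrα : ∀ i j, r i ≠ α j)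
    (hprod : ∏ i, r i = - ∏ i, α i) (hκ : ∀ i, κ (κ i) = i) (hκ0 : κ i0 = i0)
    (hκ1 : κ i1 = i1) (hrκ : ∀ i, r i * r (κ i) = 1) (hrm : ∀ i, r i ^ m = 1) :
    LP 3 (diagonal α) := by
  classical
  obtain ⟨m', rfl⟩ : ∃ m', m = m' + 1 := ⟨m - 1, by omega⟩
  have hn : 1 ≤ n := by have := i0.isLt; omega
  have hsub : ∀ i j, α i - r j ≠ 0 := fun i j => sub_ne_zero.mpr (hrα j i).symm
  have hr0 : r i0 ≠ 0 := by
    intro h
    have := hrm i0
    rw [h, zero_pow (by omega)] at this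
    exact zero_ne_one this
  set V := Wmat α r i1 with hV
  have hdet : V.det ≠ 0 := Wmat_det_ne_zero α r i0 i1 h01 hα hα0 hr01 hr hrα
  have hVu : IsUnit V.det := isUnit_iff_ne_zero.mpr hdet
  have hVV : V * V⁻¹ = 1 := Matrix.mul_nonsing_inv V hVu
  have hVV' : V⁻¹ * V = 1 := Matrix.nonsing_inv_mul V hVu
  set ρ : Fin n → ℂ := fun i => cc α r i / (2 * α i) with hρ
  have hρβ : ρ ⬝ᵥ (fun _ => (1 : ℂ)) = 1 := by
    have h := cc_inv α r hα hα0 hn hprod
    simp only [dotProduct, hρ, mul_one]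
    have h2 : ∀ i, cc α r i / (2 * α i) = (1 / 2) * (cc α r i / α i) := by
      intro i
      have := hα0 i
      field_simp
    rw [Finset.sum_congr rfl (fun i _ => h2 i), ← Finset.mul_sum, h]
    norm_num
  set T2 : Matrix (Fin n) (Fin n) ℂ := 1 - (2 : ℂ) • vecMulVec (fun _ => (1 : ℂ)) ρ with hT2
  have e2 : T2 * T2 = 1 := POL_refl _ _ hρβ
  have hXV : diagonal α * T2 * V = V * JJm r i0 i1 :=
    POL_XV α r i0 i1 h01 hα hα0 hr01 hrα
  set T0 := V * tt0 κ i1 * V⁻¹ with hT0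
  set T1 := V * (tt0 κ i1 * JJm r i0 i1) * V⁻¹ with hT1
  have hconj : ∀ A B : Matrix (Fin n) (Fin n) ℂ,
      (V * A * V⁻¹) * (V * B * V⁻¹) = V * (A * B) * V⁻¹ := by
    intro A B
    calc (V * A * V⁻¹) * (V * B * V⁻¹) = V * A * (V⁻¹ * V) * B * V⁻¹ := by
          simp only [mul_assoc]
      _ = _ := by rw [hVV', mul_one]; simp only [mul_assoc]
  have e0 : T0 * T0 = 1 := by
    rw [hT0, hconj, tt0_sq κ i1 hκ hκ1, mul_one, hVV]
  have e1 : T1 * T1 = 1 := by
    rw [hT1, hconj, tt1_sq r κ i0 i1 h01 hκ hκ0 hκ1 hr01 hrκ, mul_one, hVV]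
  have e01J : T0 * T1 = V * JJm r i0 i1 * V⁻¹ := by
    rw [hT0, hT1, hconj, ← mul_assoc (tt0 κ i1) (tt0 κ i1), tt0_sq κ i1 hκ hκ1, one_mul]
  have e01 : T0 * T1 = diagonal α * T2 := by
    rw [e01J, ← hXV, mul_assoc, hVV, mul_one]
  have e012 : T0 * T1 * T2 = diagonal α := by
    rw [e01, mul_assoc, e2, mul_one]
  have hpow : ∀ k : ℕ, (T0 * T1) ^ k = V * JJm r i0 i1 ^ k * V⁻¹ := by
    intro k
    induction k with
    | zero => simp [hVV]
    | succ k ih =>
      rw [pow_succ, ih, e01J, hconj, ← pow_succ]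
  set c : ℂ := ((m' : ℂ) + 1) * r i0 ^ m' with hc
  have hc0 : c ≠ 0 := mul_ne_zero (by exact_mod_cast Nat.succ_ne_zero m') (pow_ne_zero _ hr0)
  set b : Fin n → ℂ := fun i => V i i0 with hb
  set φ : Fin n → ℂ := fun j => c * V⁻¹ i1 j with hφ
  have hbi : ∀ i, b i ≠ 0 := by
    intro i
    simp only [hb, hV, Wmat, Matrix.of_apply, if_neg h01]
    exact div_ne_zero (hα0 i) (hsub i i0)
  have hpw : (T0 * T1) ^ (m' + 1) = 1 + vecMulVec b φ := by
    rw [hpow, JJm_pow r i0 i1 h01 hr01]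
    rw [show (fun i => r i ^ (m' + 1)) = fun _ => (1 : ℂ) from funext hrm, diagonal_one, mul_add,
      mul_one, add_mul, hVV]
    congr 1
    ext i j
    rw [Matrix.mul_smul, Matrix.smul_mul, Matrix.smul_apply, vecMulVec_apply]
    have h1 : (V * Matrix.single i0 i1 (1 : ℂ) * V⁻¹) i j = V i i0 * V⁻¹ i1 j := by
      rw [Matrix.mul_apply, Finset.sum_eq_single i1]
      · rw [Matrix.mul_single_apply_same, mul_one]
      · intro k _ hk
        rw [Matrix.mul_single_apply_of_ne _ _ _ _ _ hk, zero_mul]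
      · simp
    rw [h1]
    simp only [hb, hφ, smul_eq_mul, ← hc]
    ring
  have hφb : φ ⬝ᵥ b = 0 := by
    have h1 : (V⁻¹ * V) i1 i0 = 0 := by rw [hVV', Matrix.one_apply_ne h01.symm]
    rw [Matrix.mul_apply] at h1
    simp only [dotProduct, hφ, hb]
    rw [← mul_zero c, ← h1, Finset.mul_sum]
    apply Finset.sum_congr rfl
    intro j _
    ring
  have hb0 : b ≠ 0 := fun h => hbi i0 (congrFun h i0)
  have hφ0 : φ ≠ 0 := by
    intro h
    have h1 : (V⁻¹ * V) i1 i1 = 1 := by rw [hVV', Matrix.one_apply_eq]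
    rw [Matrix.mul_apply, Finset.sum_eq_zero] at h1
    · exact zero_ne_one h1
    · intro j _
      have h2 := congrFun h j
      simp only [hφ, Pi.zero_apply] at h2
      rcases mul_eq_zero.mp h2 with h3 | h3
      · exact absurd h3 hc0
      · rw [h3, zero_mul]
  set T : Fin 4 → Matrix (Fin n) (Fin n) ℂ := ![T0, T1, T2, 1] with hT
  have hT' : ∀ k, T k * T k = 1 := by
    intro k
    fin_cases k
    · exact e0
    · exact e1
    · exact e2
    · exact mul_one 1
  have hmain := LP_three T hT' rfl b φ hb0 hφ0 hφb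
    ((List.replicate (m' + 1) [(0 : Fin 4), 1]).flatten) (by
      rw [POL_word]
      exact hpw) ?_ ?_
  · have h1 : T 0 * T 1 * T 2 = diagonal α := e012
    rwa [h1] at hmain
  · intro W hbW hW
    have hD : ∀ w ∈ W, (fun j => α j * w j) ∈ W := by
      intro w hw
      have h1 := hW 0 _ (hW 1 _ (hW 2 w hw))
      have h2 : T 0 *ᵥ (T 1 *ᵥ (T 2 *ᵥ w)) = diagonal α *ᵥ w := by
        rw [← e012]
        simp only [hT, Matrix.mulVec_mulVec, mul_assoc]
        rfl
      rw [h2] at h1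
      convert h1 using 1
      funext j
      rw [Matrix.mulVec_diagonal]
    apply eq_top_of_single
    intro i
    exact single_mem_of_stable α hα W hD b hbW i (hbi i)
  · intro W hφW hW
    have hD : ∀ w ∈ W, (fun j => α j * w j) ∈ W := by
      intro w hw
      have h1 := hW 2 _ (hW 1 _ (hW 0 w hw))
      have h2 : ((w ᵥ* T 0) ᵥ* T 1) ᵥ* T 2 = w ᵥ* diagonal α := by
        rw [← e012]
        simp only [hT, Matrix.vecMul_vecMul]
        rfl
      rw [h2] at h1
      convert h1 using 1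
      funext j
      rw [Matrix.vecMul_diagonal, mul_comm]
    obtain ⟨i, hi⟩ : ∃ i, φ i ≠ 0 := by
      by_contra h
      push Not at h
      exact hφ0 (funext h)
    have hi1 := single_mem_of_stable α hα W hD _ hφW i hi
    have h2 := hW 2 _ hi1
    have h3 : (Pi.single i 1 : Fin n → ℂ) ᵥ* T 2 = Pi.single i 1 - (2 : ℂ) • ρ := by
      show (Pi.single i 1 : Fin n → ℂ) ᵥ* T2 = _
      rw [hT2, Matrix.vecMul_sub, Matrix.vecMul_one, Matrix.vecMul_smul, Matrix.vecMul_vecMulVec]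
      simp
    rw [h3] at h2
    have h4 : ρ ∈ W := by
      have h5 := W.sub_mem hi1 h2
      rw [sub_sub_cancel] at h5
      exact (W.smul_mem_iff two_ne_zero).mp h5
    apply eq_top_of_single
    intro j
    refine single_mem_of_stable α hα W hD ρ h4 j ?_
    simp only [hρ]
    exact div_ne_zero (cc_ne α r hα hrα j) (mul_ne_zero two_ne_zero (hα0 j))

end Pool.Agent.INU
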