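import Pool.Agent.INU.CMB
import Pool.Agent.INU.NSP

/-!
MODULE QNI. For a nilpotent endomorphism `x` of a finite dimensional space there is an involution `P` with
`P x = - x P` and with trace `0` (even dimension) or `1` (odd dimension).

PROOF. Strong induction on finrank V (statement ∀ d, ∀ V ..., finrank = d → ...). d = 0: P = 1 (trace 0: finrank_zero,
LinearMap.trace of a map of a subsingleton space). d > 0: nil_split: U = span of x^j v (j < k) with the basis
Basis.span hli, U' of smaller dimension (k > 0). On U let P (x^j v) = (-1)^j x^j v (Basis.constr): P * P = 1,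
P * x = - x * P on the basis (x^k v = 0), trace = ∑_{j<k} (-1)^j = 0 or 1 (trace of a diagonal matrix in the basis:
LinearMap.trace_eq_matrix_trace, LinearMap.toMatrix of the basis). On U' the induction hypothesis for the restriction of x
(nilpotent: Module.End.isNilpotent_restrict... or via powers). comb with A = x, B = -x.
-/

namespace Pool.Agent.INU

private theorem qni_aux (d : ℕ) : ∀ (V : Type) [AddCommGroup V] [Module ℂ V]
    [FiniteDimensional ℂ V] (x : Module.End ℂ V), Module.finrank ℂ V = d → IsNilpotent x →
    ∃ P : Module.End ℂ V, P * P = 1 ∧ P * x = -x * P ∧ LinearMap.trace ℂ V P = tgt V := by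
  induction d using Nat.strong_induction_on with
  | _ d ih =>
  intro V _ _ _ x hd hx
  rcases Nat.eq_zero_or_pos d with h0 | hpos
  · subst h0
    have hs : Subsingleton V := Module.finrank_zero_iff.mp hd
    refine ⟨1, one_mul 1, ?_, ?_⟩
    · apply LinearMap.ext
      intro y
      exact Subsingleton.elim _ _
    · rw [LinearMap.trace_one, hd, tgt, hd]
      simp
  · obtain ⟨k, v, U', hk, hkv, hli, hinv, hc⟩ := nil_split x hx (by omega)
    set U : Submodule ℂ V := Submodule.span ℂ (Set.range (fun j : Fin k => (x ^ (j : ℕ)) v))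
      with hU
    let b : Module.Basis (Fin k) ℂ U := Module.Basis.span hli
    have hb : ∀ j : Fin k, ((b j : U) : V) = (x ^ (j : ℕ)) v := fun j => by
      exact congrArg Subtype.val (Module.Basis.span_apply hli j)
    have hUinv : ∀ w ∈ U, x w ∈ U := by
      have : U ≤ U.comap x := by
        rw [hU, Submodule.span_le]
        rintro _ ⟨j, rfl⟩
        show x ((x ^ (j : ℕ)) v) ∈ U
        rw [← Module.End.mul_apply, ← pow_succ']
        by_cases hj : (j : ℕ) + 1 < k
        · exact Submodule.subset_span ⟨⟨(j : ℕ) + 1, hj⟩, rfl⟩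
        · have : (j : ℕ) + 1 = k := by omega
          rw [this, hkv]
          exact Submodule.zero_mem _
      exact fun w hw => this hw
    have hxb1 : ∀ (j : Fin k) (hj : (j : ℕ) + 1 < k),
        (LinearMap.restrict x hUinv : Module.End ℂ U) (b j) = b ⟨(j : ℕ) + 1, hj⟩ := by
      intro j hj
      apply Subtype.ext
      rw [LinearMap.coe_restrict_apply, hb, hb, ← Module.End.mul_apply, ← pow_succ']
    have hxb0 : ∀ (j : Fin k) (hj : ¬ (j : ℕ) + 1 < k),
        (LinearMap.restrict x hUinv : Module.End ℂ U) (b j) = 0 := by
      intro j hj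
      apply Subtype.ext
      have : (j : ℕ) + 1 = k := by omega
      rw [LinearMap.coe_restrict_apply, hb, ← Module.End.mul_apply, ← pow_succ', this, hkv]
      rfl
    let P : Module.End ℂ U := b.constr ℂ (fun j => ((-1 : ℂ) ^ (j : ℕ)) • b j)
    have hPb : ∀ j, P (b j) = ((-1 : ℂ) ^ (j : ℕ)) • b j := fun j => b.constr_basis ℂ _ j
    have hPP : P * P = 1 := by
      apply b.ext
      intro j
      rw [Module.End.mul_apply, hPb, map_smul, hPb, smul_smul, ← pow_add, ← two_mul, pow_mul]
      simp
    have hUneg : ∀ w ∈ U, (-x) w ∈ U := fun w hw => by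
      rw [LinearMap.neg_apply]
      exact Submodule.neg_mem _ (hUinv w hw)
    have hinvneg : ∀ w ∈ U', (-x) w ∈ U' := fun w hw => by
      rw [LinearMap.neg_apply]
      exact Submodule.neg_mem _ (hinv w hw)
    have hrU : (LinearMap.restrict (-x) hUneg : Module.End ℂ U) =
        -(LinearMap.restrict x hUinv : Module.End ℂ U) := by
      apply LinearMap.ext
      intro y
      apply Subtype.ext
      simp
    have hrU' : (LinearMap.restrict (-x) hinvneg : Module.End ℂ U') =
        -(LinearMap.restrict x hinv : Module.End ℂ U') := by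
      apply LinearMap.ext
      intro y
      apply Subtype.ext
      simp
    have hPx : P * (LinearMap.restrict x hUinv : Module.End ℂ U) =
        (LinearMap.restrict (-x) hUneg : Module.End ℂ U) * P := by
      apply b.ext
      intro j
      rw [hrU, Module.End.mul_apply, Module.End.mul_apply, hPb, map_smul, LinearMap.neg_apply]
      by_cases hj : (j : ℕ) + 1 < k
      · rw [hxb1 j hj, hPb, pow_succ]
        simp
      · rw [hxb0 j hj]
        simp
    have hfU : Module.finrank ℂ U = k := by
      rw [Module.finrank_eq_card_basis b, Fintype.card_fin]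
    have htP : LinearMap.trace ℂ U P = tgt U := by
      rw [LinearMap.trace_eq_matrix_trace ℂ b, Matrix.trace, tgt, hfU, ← neg_one_geom_sum,
        ← Fin.sum_univ_eq_sum_range]
      refine Finset.sum_congr rfl fun j _ => ?_
      rw [Matrix.diag_apply, LinearMap.toMatrix_apply, hPb, map_smul]
      simp
    have hsum := Submodule.finrank_add_eq_of_isCompl hc
    have hnil : IsNilpotent (LinearMap.restrict x hinv : Module.End ℂ U') := by
      obtain ⟨m, hm⟩ := hx
      refine ⟨m, ?_⟩
      apply LinearMap.ext
      intro y
      apply Subtype.ext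
      rw [Module.End.pow_restrict m hinv (fun w hw => by
        rw [hm]; exact Submodule.zero_mem _)]
      simp [hm]
    obtain ⟨P', hP', hPx', htP'⟩ := ih (Module.finrank ℂ U') (by omega) U' _ rfl hnil
    obtain ⟨R, hR, hRx, hRt⟩ := comb U U' hc x (-x) hUinv hinv hUneg hinvneg P P' hPP hP' hPx
      (by rw [hrU', hPx']) htP htP'
    exact ⟨R, hR, hRx, hRt⟩

theorem anti_nil {V : Type} [AddCommGroup V] [Module ℂ V] [FiniteDimensional ℂ V]
    (x : Module.End ℂ V) (hx : IsNilpotent x) :
    ∃ P : Module.End ℂ V, P * P = 1 ∧ P * x = -x * P ∧ LinearMap.trace ℂ V P = tgt V :=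
  qni_aux _ V x rfl hx

end Pool.Agent.INU
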