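import Pool.Agent.INU.SLT

/-!
MODULE ROT. The choice of the roots `r`: `ε` twice, for odd `n` also `- ε`, and pairs of roots of unity
`ω, ω⁻¹`, avoiding a finite set `X` (which does not contain `ε`, nor `- ε` for odd `n`).

PROOF. i0 = 0, i1 = 1, for odd n also i2 = 2. S = the remaining indices, even cardinality. exists_slots gives
σ, c. Choose M odd, M > 2 n, such that x ^ M = 1 implies x = 1 for all x ∈ X: M = 2 * (∏_{x ∈ X} max 1 (orderOf x)) * n + 1
(if x^M = 1 then orderOf x divides M and is nonzero, so it divides M - 1 too: x^(M-1) = 1, x = 1).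
ω = Complex.exp (2 π i / M), primitive (Complex.isPrimitiveRoot_exp). r i = ω ^ (c i) for i ∈ S, r i0 = r i1 = ε,
r i2 = - ε. κ = σ (identity outside S). (r i)^M = 1 for i ∈ S, hence m = 2 * M. ω ^ (c i) ≠ 1 since 0 < |c i| < n < M
(zpow; IsPrimitiveRoot.zpow_eq_one_iff_dvd), ω ^ (c i) ≠ -1 since (-1)^M = -1; ω ^ (c i) ∉ X since (ω ^ (c i))^M = 1
and ≠ 1; injectivity since |c i - c j| < 2 n < M. ∏ over S is ω ^ (∑ c) = 1.
-/

namespace Pool.Agent.INU

theorem exists_roots {n : ℕ} (hn : 2 ≤ n) (ε : ℂ) (hε : ε ^ 2 = 1) (X : Finset ℂ)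
    (hX1 : ε ∉ X) (hX2 : Odd n → -ε ∉ X) :
    ∃ (r : Fin n → ℂ) (i0 i1 : Fin n) (κ : Fin n → Fin n) (m : ℕ), i0 ≠ i1 ∧ 0 < m ∧
      r i0 = r i1 ∧ (∀ i j, i ≠ i1 → j ≠ i1 → r i = r j → i = j) ∧ (∀ i, κ (κ i) = i) ∧
      κ i0 = i0 ∧ κ i1 = i1 ∧ (∀ i, r i * r (κ i) = 1) ∧ (∀ i, r i ^ m = 1) ∧
      (∀ i, r i ∉ X) ∧ ∏ i, r i = (if Even n then 1 else -ε) := by
  classical
  have hε1 : ε * ε = 1 := by rw [← pow_two]; exact hε
  have hε0 : ε ≠ 0 := by
    intro h
    rw [h, zero_mul] at hε1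
    exact zero_ne_one hε1
  obtain ⟨s0, hs0e, hs0o, hs02, hs03, hs0n, hev⟩ : ∃ s0 : ℕ, (Even n → s0 = 2) ∧ (Odd n → s0 = 3) ∧
      2 ≤ s0 ∧ s0 ≤ 3 ∧ s0 ≤ n ∧ Even (n - s0) := by
    rcases Nat.even_or_odd n with h | h
    · refine ⟨2, fun _ => rfl, fun h' => absurd h (Nat.not_even_iff_odd.2 h'), le_rfl, by norm_num, hn, ?_⟩
      obtain ⟨k, hk⟩ := h
      exact ⟨k - 1, by omega⟩
    · refine ⟨3, fun h' => absurd h' (Nat.not_even_iff_odd.2 h), fun _ => rfl, by norm_num, le_rfl, ?_, ?_⟩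
      · obtain ⟨k, hk⟩ := h
        omega
      · obtain ⟨k, hk⟩ := h
        exact ⟨k - 1, by omega⟩
  let S : Finset (Fin n) := Finset.univ.filter (fun i => s0 ≤ (i : ℕ))
  have hmem : ∀ i : Fin n, i ∈ S ↔ s0 ≤ (i : ℕ) := fun i => by simp [S]
  have hcard : S.card = n - s0 := by
    have h1 : S.card = (Finset.univ.filter (fun i : Fin n => ¬ ((i : ℕ) < s0))).card := by
      congr 1
      ext i
      simp [S]
    have h2 := Finset.card_filter_add_card_filter_not (s := (Finset.univ : Finset (Fin n)))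
      (fun i : Fin n => (i : ℕ) < s0)
    have h3 : (Finset.univ.filter (fun i : Fin n => (i : ℕ) < s0)).card = s0 := by
      rw [Fin.card_filter_val_lt]
      omega
    rw [Finset.card_univ, Fintype.card_fin] at h2
    omega
  obtain ⟨σ, c, hσσ, hσo, hσS, hcσ, hcinj, hcn, hcsum⟩ := exists_slots S (by rw [hcard]; exact hev)
  -- the order
  obtain ⟨M, hModd, hM2, hMX⟩ : ∃ M : ℕ, Odd M ∧ 2 * n < M ∧ ∀ x ∈ X, x ^ M = 1 → x = 1 := by
    refine ⟨2 * ((∏ x ∈ X, max 1 (orderOf x)) * n) + 1, ⟨_, rfl⟩, ?_, ?_⟩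
    · have h1 : 1 ≤ ∏ x ∈ X, max 1 (orderOf x) := Finset.one_le_prod' (fun x _ => le_max_left _ _)
      have h2 := Nat.mul_le_mul_right n h1
      omega
    · intro x hx hxM
      have h1 : orderOf x ∣ 2 * ((∏ x ∈ X, max 1 (orderOf x)) * n) + 1 := orderOf_dvd_of_pow_eq_one hxM
      have h2 : orderOf x ≠ 0 := by
        intro h0
        rw [h0, zero_dvd_iff] at h1
        omega
      have h3 : orderOf x ∣ ∏ x ∈ X, max 1 (orderOf x) := by
        have h4 := Finset.dvd_prod_of_mem (fun x => max 1 (orderOf x)) hx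
        have h5 : max 1 (orderOf x) = orderOf x := max_eq_right (Nat.one_le_iff_ne_zero.2 h2)
        simp only [h5] at h4
        exact h4
      have h6 : x ^ (2 * ((∏ x ∈ X, max 1 (orderOf x)) * n)) = 1 :=
        orderOf_dvd_iff_pow_eq_one.1 (dvd_mul_of_dvd_right (dvd_mul_of_dvd_left h3 n) 2)
      rw [pow_succ, h6, one_mul] at hxM
      exact hxM
  have hM0 : M ≠ 0 := by omega
  set ω := Complex.exp (2 * Real.pi * Complex.I / M) with hω
  have hprim : IsPrimitiveRoot ω M := Complex.isPrimitiveRoot_exp M hM0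
  have hω0 : ω ≠ 0 := hprim.ne_zero hM0
  have hωM : ∀ k : ℤ, (ω ^ k) ^ M = 1 := by
    intro k
    rw [← zpow_natCast, zpow_comm, zpow_natCast, hprim.pow_eq_one, one_zpow]
  have hω1 : ∀ k : ℤ, k ≠ 0 → |k| < M → ω ^ k ≠ 1 := by
    intro k hk0 hk h1
    rw [hprim.zpow_eq_one_iff_dvd] at h1
    have := Int.le_of_dvd (abs_pos.2 hk0) ((dvd_abs _ _).2 h1)
    omega
  have hωm1 : ∀ k : ℤ, ω ^ k ≠ -1 := by
    intro k h1
    have h2 := hωM k
    rw [h1, hModd.neg_one_pow] at h2
    norm_num at h2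
  have hcM : ∀ i ∈ S, ω ^ c i ≠ 1 := by
    intro i hi
    refine hω1 _ (hσS i hi).2 ?_
    have := hcn i
    omega
  let r : Fin n → ℂ := fun i => if s0 ≤ (i : ℕ) then ω ^ c i else if (i : ℕ) = 2 then -ε else ε
  have hrS : ∀ i ∈ S, r i = ω ^ c i := fun i hi => if_pos ((hmem i).1 hi)
  have hrn : ∀ i, i ∉ S → r i = if (i : ℕ) = 2 then -ε else ε := fun i hi =>
    if_neg (fun h => hi ((hmem i).2 h))
  have hrnsq : ∀ i, i ∉ S → r i * r i = 1 := by
    intro i hi
    rw [hrn i hi]
    split_ifs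
    · rw [neg_mul_neg, hε1]
    · exact hε1
  have hrnpm : ∀ i, i ∉ S → r i = 1 ∨ r i = -1 := by
    intro i hi
    exact mul_self_eq_one_iff.1 (hrnsq i hi)
  have h0S : (⟨0, by omega⟩ : Fin n) ∉ S := by rw [hmem]; simp only; omega
  have h1S : (⟨1, by omega⟩ : Fin n) ∉ S := by rw [hmem]; simp only; omega
  refine ⟨r, ⟨0, by omega⟩, ⟨1, by omega⟩, σ, 2 * M, ?_, by omega, ?_, ?_, hσσ, (hσo _ h0S).1,
    (hσo _ h1S).1, ?_, ?_, ?_, ?_⟩
  · intro h
    have := congrArg Fin.val h
    simp at this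
  · rw [hrn _ h0S, hrn _ h1S]
    simp
  · intro i j hi1 hj1 hij
    by_cases hi : i ∈ S
    · by_cases hj : j ∈ S
      · rw [hrS i hi, hrS j hj] at hij
        by_contra hne
        have h1 : c i ≠ c j := fun h => hne (hcinj i hi j hj h)
        have h2 : ω ^ (c i - c j) = 1 := by
          rw [zpow_sub₀ hω0, hij, div_self (zpow_ne_zero _ hω0)]
        refine hω1 _ (sub_ne_zero.2 h1) ?_ h2
        have h3 := hcn i
        have h4 := hcn j
        rw [abs_lt] at h3 h4 ⊢
        constructor <;> omega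
      · exfalso
        rw [hrS i hi] at hij
        rcases hrnpm j hj with h | h
        · exact hcM i hi (hij.trans h)
        · exact hωm1 _ (hij.trans h)
    · by_cases hj : j ∈ S
      · exfalso
        rw [hrS j hj] at hij
        rcases hrnpm i hi with h | h
        · exact hcM j hj (hij.symm.trans h)
        · exact hωm1 _ (hij.symm.trans h)
      · have hi' := (hmem i).not.1 hi
        have hj' := (hmem j).not.1 hj
        have hi1' : (i : ℕ) ≠ 1 := fun h => hi1 (Fin.ext h)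
        have hj1' : (j : ℕ) ≠ 1 := fun h => hj1 (Fin.ext h)
        rw [hrn i hi, hrn j hj] at hij
        apply Fin.ext
        split_ifs at hij with h1 h2 h2
        · omega
        · exact absurd (self_eq_neg.1 hij.symm) hε0
        · exact absurd (self_eq_neg.1 hij) hε0
        · omega
  · intro i
    by_cases hi : i ∈ S
    · rw [hrS i hi, hrS _ (hσS i hi).1, hcσ, zpow_neg, mul_inv_cancel₀ (zpow_ne_zero _ hω0)]
    · rw [(hσo i hi).1]
      exact hrnsq i hi
  · intro i
    by_cases hi : i ∈ S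
    · rw [hrS i hi, mul_comm, pow_mul, hωM, one_pow]
    · rw [pow_mul, pow_two, hrnsq i hi, one_pow]
  · intro i
    by_cases hi : i ∈ S
    · rw [hrS i hi]
      intro hX
      exact hcM i hi (hMX _ hX (hωM _))
    · rw [hrn i hi]
      split_ifs with h
      · apply hX2
        by_contra hodd
        rw [Nat.not_odd_iff_even] at hodd
        have := hs0e hodd
        exact hi ((hmem i).2 (by omega))
      · exact hX1
  · rw [← Finset.prod_filter_mul_prod_filter_not Finset.univ (fun i : Fin n => s0 ≤ (i : ℕ))]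
    have hS1 : ∏ i ∈ Finset.univ.filter (fun i : Fin n => s0 ≤ (i : ℕ)), r i = 1 := by
      have h1 : ∏ i ∈ Finset.univ.filter (fun i : Fin n => s0 ≤ (i : ℕ)), r i =
          ∏ i ∈ S, ω ^ c i := Finset.prod_congr rfl (fun i hi => hrS i hi)
      rw [h1]
      have h2 : ∏ i, ω ^ c i = ∏ i ∈ S, ω ^ c i := by
        symm
        apply Finset.prod_subset (Finset.subset_univ S)
        intro i _ hi
        rw [(hσo i hi).2, zpow_zero]
      rw [← h2]
      have h3 : ∀ T : Finset (Fin n), ∏ i ∈ T, ω ^ c i = ω ^ (∑ i ∈ T, c i) := by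
        intro T
        induction T using Finset.induction_on with
        | empty => simp
        | insert a T ha ih => rw [Finset.prod_insert ha, Finset.sum_insert ha, zpow_add₀ hω0, ih]
      rw [h3, hcsum, zpow_zero]
    rw [hS1, one_mul]
    have hT : Finset.univ.filter (fun i : Fin n => ¬ s0 ≤ (i : ℕ)) =
        (Finset.univ.filter (fun i : Fin n => (i : ℕ) < s0)) := by
      ext i
      simp
    rw [hT]
    have hprod : ∏ i ∈ Finset.univ.filter (fun i : Fin n => (i : ℕ) < s0), r i =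
        ∏ k ∈ Finset.range s0, (if k = 2 then -ε else ε) := by
      refine Finset.prod_bij' (fun i _ => (i : ℕ)) (fun k hk => ⟨k, ?_⟩) ?_ ?_ ?_ ?_ ?_
      · rw [Finset.mem_range] at hk
        omega
      · intro i hi
        rw [Finset.mem_filter] at hi
        exact Finset.mem_range.2 hi.2
      · intro k hk
        rw [Finset.mem_range] at hk
        rw [Finset.mem_filter]
        exact ⟨Finset.mem_univ _, hk⟩
      · intro i _
        rfl
      · intro k _
        rfl
      · intro i hi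
        rw [Finset.mem_filter] at hi
        exact hrn i (fun h => absurd hi.2 (not_lt.2 ((hmem i).1 h)))
    rw [hprod]
    rcases Nat.even_or_odd n with h | h
    · rw [hs0e h, if_pos h]
      rw [Finset.prod_range_succ, Finset.prod_range_succ, Finset.prod_range_zero]
      simp [hε1]
    · rw [hs0o h, if_neg (Nat.not_even_iff_odd.2 h)]
      rw [Finset.prod_range_succ, Finset.prod_range_succ, Finset.prod_range_succ,
        Finset.prod_range_zero]
      simp [hε1]

end Pool.Agent.INU
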