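import Mathlib

/-!
MODULE SLT. Symmetric slots on a set of even cardinality.

PROOF. Let e : S ≃ Fin (S.card) (Finset.equivFin). For i ∈ S put c i = 2 * (e i : ℤ) + 1 - S.card (odd number
minus even, so nonzero) and σ i = e.symm (Fin.rev (e i)); for i ∉ S put c i = 0, σ i = i.
Then c (σ i) = 2 * (card - 1 - e i) + 1 - card = - c i. |c i| < S.card <= n.
sum_slots: ∑ c = ∑ c ∘ σ = - ∑ c (σ is a bijection).
-/

namespace Pool.Agent.INU

theorem exists_slots {n : ℕ} (S : Finset (Fin n)) (hS : Even S.card) :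
    ∃ (σ : Fin n → Fin n) (c : Fin n → ℤ), (∀ i, σ (σ i) = i) ∧ (∀ i ∉ S, σ i = i ∧ c i = 0) ∧
      (∀ i ∈ S, σ i ∈ S ∧ c i ≠ 0) ∧ (∀ i, c (σ i) = - c i) ∧
      (∀ i ∈ S, ∀ j ∈ S, c i = c j → i = j) ∧ (∀ i, |c i| < n) ∧ ∑ i, c i = 0 := by
  classical
  let e : S ≃ Fin S.card := S.equivFin
  let σ : Fin n → Fin n := fun i => if h : i ∈ S then (e.symm (Fin.rev (e ⟨i, h⟩)) : Fin n) else i
  let c : Fin n → ℤ := fun i => if h : i ∈ S then 2 * ((e ⟨i, h⟩ : Fin S.card) : ℤ) + 1 - S.card else 0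
  have hσ1 : ∀ i (h : i ∈ S), σ i = (e.symm (Fin.rev (e ⟨i, h⟩)) : Fin n) := fun i h => dif_pos h
  have hσ0 : ∀ i, i ∉ S → σ i = i := fun i h => dif_neg h
  have hc1 : ∀ i (h : i ∈ S), c i = 2 * ((e ⟨i, h⟩ : Fin S.card) : ℤ) + 1 - S.card :=
    fun i h => dif_pos h
  have hc0 : ∀ i, i ∉ S → c i = 0 := fun i h => dif_neg h
  have hσS : ∀ i ∈ S, σ i ∈ S := by
    intro i h
    rw [hσ1 i h]
    exact (e.symm (Fin.rev (e ⟨i, h⟩))).2
  have heσ : ∀ i (h : i ∈ S), e ⟨σ i, hσS i h⟩ = Fin.rev (e ⟨i, h⟩) := by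
    intro i h
    have h1 : (⟨σ i, hσS i h⟩ : S) = e.symm (Fin.rev (e ⟨i, h⟩)) := Subtype.ext (hσ1 i h)
    rw [h1, Equiv.apply_symm_apply]
  have hinv : ∀ i, σ (σ i) = i := by
    intro i
    by_cases h : i ∈ S
    · rw [hσ1 (σ i) (hσS i h), heσ i h, Fin.rev_rev, Equiv.symm_apply_apply]
    · rw [hσ0 i h, hσ0 i h]
  have hneg : ∀ i, c (σ i) = - c i := by
    intro i
    by_cases h : i ∈ S
    · rw [hc1 (σ i) (hσS i h), heσ i h, hc1 i h, Fin.val_rev]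
      have := (e ⟨i, h⟩).2
      omega
    · rw [hσ0 i h, hc0 i h, neg_zero]
  have hcard : S.card ≤ n := by
    have := Finset.card_le_univ S
    rwa [Fintype.card_fin] at this
  refine ⟨σ, c, hinv, fun i h => ⟨hσ0 i h, hc0 i h⟩, fun i h => ⟨hσS i h, ?_⟩, hneg, ?_, ?_, ?_⟩
  · rw [hc1 i h]
    obtain ⟨k, hk⟩ := hS
    omega
  · intro i hi j hj hij
    rw [hc1 i hi, hc1 j hj] at hij
    have h1 : e ⟨i, hi⟩ = e ⟨j, hj⟩ := by
      apply Fin.ext
      omega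
    have h2 := e.injective h1
    exact congrArg Subtype.val h2
  · intro i
    by_cases h : i ∈ S
    · rw [hc1 i h, abs_lt]
      have := (e ⟨i, h⟩).2
      constructor <;> omega
    · rw [hc0 i h, abs_zero]
      have := i.2
      omega
  · have h1 : ∑ i, c i = ∑ i, c (σ i) := by
      refine (Equiv.sum_comp (⟨σ, σ, hinv, hinv⟩ : Fin n ≃ Fin n) c).symm
    have h2 : ∑ i, c (σ i) = - ∑ i, c i := by
      rw [← Finset.sum_neg_distrib]
      exact Finset.sum_congr rfl (fun i _ => hneg i)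
    omega

end Pool.Agent.INU
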